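import Pool.Agent.Y579.HM.Parity
import Pool.Agent.H19R3.DNC

/-!
The colourings of the starting library whose solutions compute `0''` are definable: base `3`,
relations of arity `4`.
-/

namespace Pool.Agent.Y579.HM

open Pool.Agent.H645R2.HT

/-- the local rules -/
def gam : Fin 3 → ℕ → ℕ → ℕ → ℕ → Bool := ![g1 W0, g2 W0 p0, g3 W0]

/-- the relations of arity `4` -/
def Rel4 (a : Fin 3) (x : Fin 4 → ℕ) : Bool := gam a (x 0) (x 1) (x 2) (x 3)

/-- implication -/
def fImp (φ ψ : Form 3 4) : Form 3 4 := .neg (.and φ (.neg ψ))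
/-- equivalence -/
def fIff (φ ψ : Form 3 4) : Form 3 4 := .and (fImp φ ψ) (fImp ψ φ)
/-- for all positions -/
def fAll (J : ℕ) (φ : Form 3 4) : Form 3 4 := .neg (.ex₁ J (.neg φ))
/-- no position before `J` -/
def fFst (J : ℕ) : Form 3 4 := fAll 5 (.neg (.lt 5 J))
/-- no position after `J` -/
def fLst (J : ℕ) : Form 3 4 := fAll 5 (.neg (.lt J 5))
/-- `3` and `4` are neighbours -/
def fAdj : Form 3 4 := .and (.lt 3 4) (.neg (.ex₁ 5 (.and (.lt 3 5) (.lt 5 4))))

/-- the parity of a gap sum -/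
def fPar (a : Fin 3) : Form 3 4 :=
  .ex₁ 0 (.ex₁ 1 (.and (fLst 0) (.and (fFst 1) (.ex₂ 2 (.and (.neg (.mem 1 2)) (.and (.mem 0 2)
    (fAll 3 (fAll 4 (fImp fAdj (fIff (.mem 4 2)
      (.neg (fIff (.mem 3 2) (.rel a ![0, 1, 3, 4]))))))))))))) 

/-- the first digit is `1` -/
def fOne : Form 3 4 := .ex₁ 1 (.and (fFst 1) (.dig 1 1))

section
variable {R : Fin 3 → (Fin 4 → ℕ) → Prop} {b n : ℕ} {v : ℕ → Set ℕ}

theorem sat_imp (φ ψ : Form 3 4) : Sat R b n (fImp φ ψ) v ↔ (Sat R b n φ v → Sat R b n ψ v) := by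
  show ¬ (Sat R b n φ v ∧ ¬ Sat R b n ψ v) ↔ _
  tauto

theorem sat_fiff (φ ψ : Form 3 4) : Sat R b n (fIff φ ψ) v ↔ (Sat R b n φ v ↔ Sat R b n ψ v) := by
  show Sat R b n (fImp φ ψ) v ∧ Sat R b n (fImp ψ φ) v ↔ _
  rw [sat_imp, sat_imp]
  tauto

theorem sat_all (J : ℕ) (φ : Form 3 4) : Sat R b n (fAll J φ) v ↔
    ∀ x ∈ supp b n, Sat R b n φ (Function.update v J {x}) := by
  show ¬ (∃ x ∈ supp b n, ¬ Sat R b n φ (Function.update v J {x})) ↔ _
  push Not
  exact Iff.rfl

theorem sat_neg (φ : Form 3 4) : Sat R b n (.neg φ) v ↔ ¬ Sat R b n φ v := Iff.rfl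

theorem sat_and (φ ψ : Form 3 4) : Sat R b n (.and φ ψ) v ↔ Sat R b n φ v ∧ Sat R b n ψ v := Iff.rfl

theorem sat_ex₁ (J : ℕ) (φ : Form 3 4) : Sat R b n (.ex₁ J φ) v ↔
    ∃ x ∈ supp b n, Sat R b n φ (Function.update v J {x}) := Iff.rfl

theorem sat_ex₂ (J : ℕ) (φ : Form 3 4) : Sat R b n (.ex₂ J φ) v ↔
    ∃ T ⊆ supp b n, Sat R b n φ (Function.update v J T) := Iff.rfl

theorem sat_lt {J K x y : ℕ} (hx : v J = {x}) (hy : v K = {y}) :
    Sat R b n (.lt J K) v ↔ x < y := by
  show (∃ x' ∈ v J, ∃ y' ∈ v K, x' < y') ↔ _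
  rw [hx, hy]
  simp

theorem sat_mem {J K x : ℕ} {T : Set ℕ} (hx : v J = {x}) (hT : v K = T) :
    Sat R b n (.mem J K) v ↔ x ∈ T := by
  show (∃ x' ∈ v J, x' ∈ v K) ↔ _
  rw [hx, hT]
  simp

theorem sat_dig {d J x : ℕ} (hx : v J = {x}) :
    Sat R b n (.dig d J) v ↔ n / b ^ x % b = d := by
  show (∃ x' ∈ v J, n / b ^ x' % b = d) ↔ _
  rw [hx]
  simp

theorem sat_rel {a : Fin 3} {J : Fin 4 → ℕ} {x : Fin 4 → ℕ} (hx : ∀ i, v (J i) = {x i}) :
    Sat R b n (.rel a J) v ↔ R a x := by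
  show (∃ y : Fin 4 → ℕ, (∀ i, y i ∈ v (J i)) ∧ R a y) ↔ _
  constructor
  · rintro ⟨y, hy, h⟩
    have e : y = x := funext fun i => by
      have := hy i
      rw [hx] at this
      exact this
    rw [← e]
    exact h
  · intro h
    exact ⟨x, fun i => by rw [hx]; rfl, h⟩

theorem sat_fst {J x : ℕ} (hJ : J ≠ 5) (hx : v J = {x}) :
    Sat R b n (fFst J) v ↔ ∀ w ∈ supp b n, ¬ w < x := by
  unfold fFst
  rw [sat_all]
  refine forall₂_congr fun w _ => ?_
  rw [sat_neg, sat_lt (x := w) (y := x) (Function.update_self _ _ _)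
    (by rw [Function.update_of_ne hJ]; exact hx)]

theorem sat_lst {J x : ℕ} (hJ : J ≠ 5) (hx : v J = {x}) :
    Sat R b n (fLst J) v ↔ ∀ w ∈ supp b n, ¬ x < w := by
  unfold fLst
  rw [sat_all]
  refine forall₂_congr fun w _ => ?_
  rw [sat_neg, sat_lt (x := x) (y := w) (by rw [Function.update_of_ne hJ]; exact hx)
    (Function.update_self _ _ _)]

theorem sat_adj {x y : ℕ} (hx : v 3 = {x}) (hy : v 4 = {y}) :
    Sat R b n fAdj v ↔ (x < y ∧ ¬ ∃ w ∈ supp b n, x < w ∧ w < y) := by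
  unfold fAdj
  rw [sat_and, sat_lt hx hy, sat_neg, sat_ex₁]
  refine and_congr_right fun _ => not_congr (exists_congr fun w => and_congr_right fun _ => ?_)
  rw [sat_and, sat_lt (x := x) (y := w) (by rw [Function.update_of_ne (by decide)]; exact hx)
    (Function.update_self _ _ _), sat_lt (x := w) (y := y) (Function.update_self _ _ _)
    (by rw [Function.update_of_ne (by decide)]; exact hy)]

theorem sat_par (a : Fin 3) : Sat R b n (fPar a) v ↔
    ∃ s ∈ supp b n, ∃ x ∈ supp b n, (∀ w ∈ supp b n, ¬ s < w) ∧ (∀ w ∈ supp b n, ¬ w < x) ∧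
      ∃ Y ⊆ supp b n, x ∉ Y ∧ s ∈ Y ∧ ∀ p ∈ supp b n, ∀ q ∈ supp b n,
        p < q → (¬ ∃ w ∈ supp b n, p < w ∧ w < q) →
        (q ∈ Y ↔ ¬ (p ∈ Y ↔ R a ![s, x, p, q])) := by
  unfold fPar
  rw [sat_ex₁]
  refine exists_congr fun s => and_congr_right fun _ => ?_
  rw [sat_ex₁]
  refine exists_congr fun x => and_congr_right fun _ => ?_
  rw [sat_and, sat_and, sat_lst (x := s) (by decide) (by simp [Function.update]),
    sat_fst (x := x) (by decide) (by simp [Function.update]), sat_ex₂]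
  refine and_congr_right fun _ => and_congr_right fun _ => exists_congr fun Y =>
    and_congr_right fun _ => ?_
  rw [sat_and, sat_and, sat_neg, sat_mem (x := x) (T := Y) (by simp [Function.update])
    (by simp [Function.update]), sat_mem (x := s) (T := Y) (by simp [Function.update])
    (by simp [Function.update]), sat_all]
  refine and_congr_right fun _ => and_congr_right fun _ => forall₂_congr fun p _ => ?_
  rw [sat_all]
  refine forall₂_congr fun q _ => ?_
  rw [sat_imp, sat_adj (x := p) (y := q) (by simp [Function.update]) (by simp [Function.update]),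
    sat_fiff, sat_mem (x := q) (T := Y) (by simp [Function.update]) (by simp [Function.update]),
    sat_neg, sat_fiff, sat_mem (x := p) (T := Y) (by simp [Function.update])
      (by simp [Function.update]),
    sat_rel (x := ![s, x, p, q]) (by
      intro i
      fin_cases i <;> simp [Function.update])]
  tauto

end

theorem supp3 (n q : ℕ) : q ∈ supp 3 n ↔ q ∈ L n := by
  rw [mem_L]
  exact Iff.rfl

theorem sat_par_C (a : Fin 3) (n : ℕ) :
    Sat (fun a x => Rel4 a x = true) 3 n (fPar a) (fun _ => ∅) ↔ C (gam a) n = true := by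
  rw [sat_par]
  simp only [supp3]
  have e : supp 3 n = {q | q ∈ L n} := Set.ext (supp3 n)
  rw [e]
  exact par_sem (L_sorted n).pairwise (gam a)

theorem sat_one_b0 {R : Fin 3 → (Fin 4 → ℕ) → Prop} (n : ℕ) :
    Sat R 3 n fOne (fun _ => ∅) ↔ b0 n = true := by
  have hl := (L_sorted n).pairwise
  unfold fOne
  rw [sat_ex₁]
  have h1 : ∀ x, Sat R 3 n (.and (fFst 1) (.dig 1 1)) (Function.update (fun _ => ∅) 1 {x}) ↔
      (∀ w ∈ L n, ¬ w < x) ∧ dg x n = 1 := by
    intro x
    rw [sat_and, sat_fst (x := x) (by decide) (Function.update_self _ _ _),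
      sat_dig (x := x) (Function.update_self _ _ _)]
    simp only [supp3]
    exact Iff.rfl
  simp only [h1, supp3]
  unfold b0 la
  rw [decide_eq_true_iff]
  constructor
  · rintro ⟨x, hx, h2, h3⟩
    have hx' : x = (L n).headD 0 := by
      cases hL : L n with
      | nil => rw [hL] at hx; simp at hx
      | cons a l =>
        rw [hL] at hx h2 hl
        rcases List.mem_cons.1 hx with rfl | hx
        · rfl
        · have h4 := (List.pairwise_cons.1 hl).1 x hx
          exact absurd h4 (h2 a (by simp))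
    rw [← hx']
    exact h3
  · intro h
    refine ⟨(L n).headD 0, ?_, ?_, h⟩
    · rw [mem_L, h]
      decide
    · intro w hw
      cases hL : L n with
      | nil => rw [hL] at hw; simp at hw
      | cons a l =>
        rw [hL] at hw hl
        rcases List.mem_cons.1 hw with rfl | hw
        · simp
        · have h4 := (List.pairwise_cons.1 hl).1 w hw
          simp only [List.headD_cons]
          omega

end Pool.Agent.Y579.HM
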