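import Pool.Agent.Y579.HM.Mso

/-!
Blocks of elements of a homogeneous set as digits of numbers.
-/

namespace Pool.Agent.Y579.HM

open Encodable

theorem digit_sum {b : ℕ} (hb : 2 ≤ b) (S : Finset ℕ) (x : ℕ) :
    (∑ q ∈ S, b ^ q) / b ^ x % b = if x ∈ S then 1 else 0 := by
  classical
  have hpos : 0 < b ^ x := by positivity
  -- split the sum
  have h1 : ∑ q ∈ S, b ^ q = (∑ q ∈ S with q < x, b ^ q) + ∑ q ∈ S with ¬ q < x, b ^ q :=
    (Finset.sum_filter_add_sum_filter_not S (· < x) _).symm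
  have h2 : ∑ q ∈ S with q < x, b ^ q < b ^ x :=
    Nat.geomSum_lt hb fun k hk => (Finset.mem_filter.1 hk).2
  have h3 : ∃ c, ∑ q ∈ S with ¬ q < x, b ^ q = b ^ x * ((if x ∈ S then 1 else 0) + b * c) := by
    have h4 : ∑ q ∈ S with ¬ q < x, b ^ q = (∑ q ∈ (S.filter fun q => ¬ q < x) with q = x, b ^ q) +
        ∑ q ∈ (S.filter fun q => ¬ q < x) with ¬ q = x, b ^ q :=
      (Finset.sum_filter_add_sum_filter_not _ (· = x) _).symm
    have h5 : ∑ q ∈ (S.filter fun q => ¬ q < x) with q = x, b ^ q =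
        b ^ x * if x ∈ S then 1 else 0 := by
      rw [Finset.filter_filter]
      by_cases hx : x ∈ S
      · have e : S.filter (fun q => ¬ q < x ∧ q = x) = {x} := by
          ext q
          simp only [Finset.mem_filter, Finset.mem_singleton]
          constructor
          · rintro ⟨_, _, h⟩; exact h
          · rintro rfl; exact ⟨hx, lt_irrefl _, rfl⟩
        rw [e, if_pos hx]
        simp
      · have e : S.filter (fun q => ¬ q < x ∧ q = x) = ∅ := by
          ext q
          simp only [Finset.mem_filter, Finset.notMem_empty, iff_false]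
          rintro ⟨h, _, rfl⟩
          exact hx h
        rw [e, if_neg hx]
        simp
    have h6 : ∃ c, ∑ q ∈ (S.filter fun q => ¬ q < x) with ¬ q = x, b ^ q = b ^ x * (b * c) := by
      have h7 : b ^ (x + 1) ∣ ∑ q ∈ (S.filter fun q => ¬ q < x) with ¬ q = x, b ^ q := by
        refine Finset.dvd_sum fun q hq => pow_dvd_pow b ?_
        simp only [Finset.mem_filter] at hq
        omega
      obtain ⟨c, hc⟩ := h7
      exact ⟨c, by rw [hc]; ring⟩
    obtain ⟨c, hc⟩ := h6
    exact ⟨c, by rw [h4, h5, hc]; ring⟩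
  obtain ⟨c, hc⟩ := h3
  rw [h1, hc, Nat.add_mul_div_left _ _ hpos, Nat.div_eq_of_lt h2, zero_add, Nat.add_mul_mod_self_left]
  split_ifs
  · exact Nat.mod_eq_of_lt (by omega)
  · simp

theorem supp_sum {b : ℕ} (hb : 2 ≤ b) (S : Finset ℕ) (q : ℕ) :
    q ∈ supp b (∑ q ∈ S, b ^ q) ↔ q ∈ S := by
  show (∑ q ∈ S, b ^ q) / b ^ q % b ≠ 0 ↔ _
  rw [digit_sum hb]
  split_ifs with h <;> simp [h]

open Nat in
/-- the number of the `j`-th block -/
def blkN (b : ℕ) (h : ℕ → ℕ) (j : ℕ) : ℕ := ∑ i ∈ Finset.range (j + 1)!, b ^ h ((j + 1)! + i)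

open Nat in
theorem blk_index {j j' i i' : ℕ} (hi : i < (j + 1)!) (hi' : i' < (j' + 1)!)
    (h : (j + 1)! + i = (j' + 1)! + i') : j = j' ∧ i = i' := by
  have key : ∀ {j j' i i' : ℕ}, i < (j + 1)! → (j + 1)! + i = (j' + 1)! + i' → ¬ j < j' := by
    intro j j' i i' hi h hjj
    have h1 : (j + 2)! ≤ (j' + 1)! := Nat.factorial_le (by omega)
    have h2 : (j + 2)! = (j + 2) * (j + 1)! := Nat.factorial_succ (j + 1)
    have h3 : 2 * (j + 1)! ≤ (j + 2) * (j + 1)! := Nat.mul_le_mul_right _ (by omega)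
    omega
  have h1 := key hi h
  have h2 := key hi' h.symm
  have e : j = j' := by omega
  subst e
  exact ⟨rfl, by omega⟩

section
variable {b : ℕ} (hb : 2 ≤ b) {h : ℕ → ℕ} (hh : StrictMono h)
include hb hh

open Nat in
theorem blkN_eq (j : ℕ) : blkN b h j =
    ∑ q ∈ (Finset.range (j + 1)!).image fun i => h ((j + 1)! + i), b ^ q := by
  unfold blkN
  rw [Finset.sum_image]
  intro i _ i' _ hii
  have := hh.injective hii
  omega

theorem blkN_inj {j j' : ℕ} (hj : blkN b h j = blkN b h j') : j = j' := by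
  rw [blkN_eq hb hh, blkN_eq hb hh] at hj
  have h1 : h (Nat.factorial (j + 1) + 0) ∈
      (Finset.range (Nat.factorial (j + 1))).image fun i => h (Nat.factorial (j + 1) + i) :=
    Finset.mem_image.2 ⟨0, Finset.mem_range.2 (Nat.factorial_pos _), rfl⟩
  rw [← supp_sum hb, hj, supp_sum hb] at h1
  obtain ⟨i, hi, he⟩ := Finset.mem_image.1 h1
  exact ((blk_index (Finset.mem_range.1 hi) (Nat.factorial_pos _) (hh.injective he)).1).symm

theorem blkN_pos (j : ℕ) : 0 < blkN b h j := by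
  unfold blkN
  refine Finset.sum_pos (fun i _ => by positivity) ⟨0, Finset.mem_range.2 (Nat.factorial_pos _)⟩

/-- Sums of finitely many blocks. -/
theorem sum_blocks (F : Finset ℕ) (hF : (F : Set ℕ) ⊆ Set.range (blkN b h)) (hne : F.Nonempty)
    {M m : ℕ} (hM : 0 < M) (hm : ∑ j ∈ Finset.range M, blkN b h j < m) (hFm : ∀ x ∈ F, m ≤ x) :
    ∃ S : Finset ℕ, ∃ t, 1 ≤ t ∧ S.card = t * M ∧ (∀ q ∈ S, q ∈ Set.range h) ∧
      ∑ x ∈ F, x = ∑ q ∈ S, b ^ q := by
  classical
  have h1 : (F : Set ℕ) ⊆ blkN b h '' Set.univ := by rw [Set.image_univ]; exact hF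
  obtain ⟨G, _, rfl⟩ := Finset.subset_set_image_iff.1 h1
  have hG : G.Nonempty := Finset.image_nonempty.1 hne
  -- all the indices are at least `M`
  have hGM : ∀ j ∈ G, M ≤ j := by
    intro j hj
    by_contra hcon
    have h2 := hFm _ (Finset.mem_image_of_mem _ hj)
    have h3 : blkN b h j ≤ ∑ j ∈ Finset.range M, blkN b h j :=
      Finset.single_le_sum (f := blkN b h) (fun _ _ => Nat.zero_le _)
        (Finset.mem_range.2 (by omega))
    omega
  have hinj : ∀ p ∈ G.sigma fun j => Finset.range (Nat.factorial (j + 1)),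
      ∀ p' ∈ G.sigma fun j => Finset.range (Nat.factorial (j + 1)),
      h (Nat.factorial (p.1 + 1) + p.2) = h (Nat.factorial (p'.1 + 1) + p'.2) → p = p' := by
    rintro ⟨j, i⟩ hp ⟨j', i'⟩ hp' he
    have hp1 := Finset.mem_sigma.1 hp
    have hp2 := Finset.mem_sigma.1 hp'
    obtain ⟨e1, e2⟩ := blk_index (Finset.mem_range.1 hp1.2) (Finset.mem_range.1 hp2.2)
      (hh.injective he)
    subst e1
    subst e2
    rfl
  have hcard : ((G.sigma fun j => Finset.range (Nat.factorial (j + 1))).image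
      fun p => h (Nat.factorial (p.1 + 1) + p.2)).card = ∑ j ∈ G, Nat.factorial (j + 1) := by
    rw [Finset.card_image_of_injOn (fun p hp p' hp' he => hinj p hp p' hp' he),
      Finset.card_sigma]
    simp
  have hdvd : M ∣ ∑ j ∈ G, Nat.factorial (j + 1) := by
    refine Finset.dvd_sum fun j hj => ?_
    exact Nat.dvd_factorial hM (by have := hGM j hj; omega)
  obtain ⟨t, ht⟩ := hdvd
  have hpos : 0 < ∑ j ∈ G, Nat.factorial (j + 1) :=
    Finset.sum_pos (fun j _ => Nat.factorial_pos _) hG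
  refine ⟨(G.sigma fun j => Finset.range (Nat.factorial (j + 1))).image
    fun p => h (Nat.factorial (p.1 + 1) + p.2), t, ?_, by rw [hcard, ht]; ring, ?_, ?_⟩
  · rcases Nat.eq_zero_or_pos t with h0 | h0
    · rw [ht, h0, mul_zero] at hpos
      omega
    · exact h0
  · intro q hq
    obtain ⟨p, _, rfl⟩ := Finset.mem_image.1 hq
    exact ⟨_, rfl⟩
  · rw [Finset.sum_image fun j _ j' _ he => blkN_inj hb hh he,
      Finset.sum_image (fun p hp p' hp' he => hinj p hp p' hp' he), Finset.sum_sigma]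
    rfl

end

end Pool.Agent.Y579.HM
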