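import Pool.Agent.Y579.HM.Blocks

/-!
One set of bounded level on whose finite sums all definable properties are eventually constant.
-/

namespace Pool.Agent.Y579.HM

open Encodable

theorem primrec_pow (b : ℕ) : Primrec fun i : ℕ => b ^ i := by
  have h : Primrec fun i : ℕ => (Nat.rec (motive := fun _ => ℕ) 1 (fun _ r => r * b) i : ℕ) :=
    Primrec.nat_rec₁ 1 (Primrec.nat_mul.comp Primrec.snd (Primrec.const b)).to₂
  refine h.of_eq fun i => ?_
  induction i with
  | zero => rfl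
  | succ i ih =>
    rw [pow_succ, ← ih]

theorem primrec_fact : Primrec fun i : ℕ => Nat.factorial i := by
  have h : Primrec fun i : ℕ => (Nat.rec (motive := fun _ => ℕ) 1 (fun n r => (n + 1) * r) i : ℕ) :=
    Primrec.nat_rec₁ 1 (Primrec.nat_mul.comp (Primrec.succ.comp Primrec.fst) Primrec.snd).to₂
  refine h.of_eq fun i => ?_
  induction i with
  | zero => rfl
  | succ i ih =>
    rw [Nat.factorial_succ, ← ih]

theorem primrec_sum : Primrec fun l : List ℕ => l.sum := by
  have h : Primrec fun l : List ℕ => l.foldr (fun a c => a + c) 0 :=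
    Primrec.list_foldr (f := fun l : List ℕ => l) (g := fun _ => 0)
      (h := fun _ (p : ℕ × ℕ) => p.1 + p.2) Primrec.id (Primrec.const 0)
      (Primrec.nat_add.comp (Primrec.fst.comp Primrec.snd) (Primrec.snd.comp Primrec.snd)).to₂
  exact h

/-- the number of the block given by the elements of `l` from the `N`-th one on -/
def lastN (b N : ℕ) (l : List ℕ) : ℕ := ((l.drop N).map fun i => b ^ i).sum

theorem primrec_lastN (b : ℕ) : Primrec₂ (lastN b) := by
  refine (primrec_sum.comp (Primrec.list_map (Primrec.list_drop.comp Primrec.fst Primrec.snd)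
    ((primrec_pow b).comp Primrec.snd).to₂)).to₂

/-- `l` is an initial segment of `H` -/
def Ini (H : Set ℕ) (l : List ℕ) : Prop :=
  ∀ q : ℕ × ℕ, (q.1 < q.2 ∧ q.2 < l.length → l.getD q.1 0 < l.getD q.2 0) ∧
    ((q.1 ∈ l → q.1 ∈ H) ∧ ((q.1 ∈ H ∧ ∃ y ∈ l, q.1 ≤ y) → q.1 ∈ l))

theorem lev_Ini {Z : Set ℕ} {L : ℕ} {H : Set ℕ} (hH : LevN Z L (· ∈ H)) :
    Lev Z (L + 1) (Ini H) := by
  have hge : PrimrecRel fun (l : List ℕ) (m : ℕ) => ∃ y ∈ l, m ≤ y :=
    PrimrecRel.exists_mem_list (Primrec.nat_le.comp Primrec.snd Primrec.fst)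
  have hH' : Lev Z L fun x : List ℕ × (ℕ × ℕ) => x.2.1 ∈ H :=
    (lev_iff.2 hH).subst (g := fun x : List ℕ × (ℕ × ℕ) => x.2.1)
      (Primrec.fst.comp Primrec.snd).to_comp
  have hmem : Lev Z L fun x : List ℕ × (ℕ × ℕ) => x.2.1 ∈ x.1 :=
    Lev.of_primrec (primrec_mem.comp Primrec.fst (Primrec.fst.comp Primrec.snd))
  have h1 : Lev Z L fun x : List ℕ × (ℕ × ℕ) =>
      (x.2.1 < x.2.2 ∧ x.2.2 < x.1.length → x.1.getD x.2.1 0 < x.1.getD x.2.2 0) ∧
        ((x.2.1 ∈ x.1 → x.2.1 ∈ H) ∧ ((x.2.1 ∈ H ∧ ∃ y ∈ x.1, x.2.1 ≤ y) → x.2.1 ∈ x.1)) := by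
    refine Lev.and (Lev.imp (Lev.and ?_ ?_) ?_) (Lev.and (hmem.imp hH')
      (Lev.imp (hH'.and ?_) hmem))
    · exact Lev.of_primrec (Primrec.nat_lt.comp (Primrec.fst.comp Primrec.snd)
        (Primrec.snd.comp Primrec.snd))
    · exact Lev.of_primrec (Primrec.nat_lt.comp (Primrec.snd.comp Primrec.snd)
        (Primrec.list_length.comp Primrec.fst))
    · exact Lev.of_primrec (Primrec.nat_lt.comp
        ((Primrec.list_getD 0).comp Primrec.fst (Primrec.fst.comp Primrec.snd))
        ((Primrec.list_getD 0).comp Primrec.fst (Primrec.snd.comp Primrec.snd)))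
    · exact Lev.of_primrec (hge.comp Primrec.fst (Primrec.fst.comp Primrec.snd))
  exact h1.all

theorem ini_range {H : Set ℕ} {h : ℕ → ℕ} (hh : StrictMono h) (hr : Set.range h = H) (c : ℕ) :
    Ini H ((List.range c).map h) := by
  rintro ⟨i, j⟩
  refine ⟨?_, ?_, ?_⟩
  · rintro ⟨hij, hj⟩
    have hj' : j < c := by simpa using hj
    have hi' : i < c := lt_trans hij hj'
    simp only [List.getD_eq_getElem?_getD, List.getElem?_map]
    rw [List.getElem?_range hi', List.getElem?_range hj']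
    exact hh hij
  · intro hi
    obtain ⟨m, _, rfl⟩ := List.mem_map.1 hi
    rw [← hr]
    exact ⟨m, rfl⟩
  · rintro ⟨hi, y, hy, hle⟩
    obtain ⟨m, hm, rfl⟩ := List.mem_map.1 hy
    rw [← hr] at hi
    obtain ⟨m', hm'⟩ := hi
    refine List.mem_map.2 ⟨m', List.mem_range.2 ?_, hm'⟩
    have h1 : h m' ≤ h m := by rw [hm']; exact hle
    have h2 := hh.le_iff_le.1 h1
    have h3 := List.mem_range.1 hm
    omega

theorem ini_eq {H : Set ℕ} {h : ℕ → ℕ} (hh : StrictMono h) (hr : Set.range h = H) {l : List ℕ}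
    (hl : Ini H l) (hne : l ≠ []) : ∃ c, l = (List.range (c + 1)).map h := by
  have hs : l.Pairwise (· < ·) := by
    rw [List.pairwise_iff_getElem]
    intro i j hi hj hij
    have := (hl (i, j)).1 ⟨hij, hj⟩
    simp only [List.getD_eq_getElem?_getD] at this
    rw [List.getElem?_eq_getElem hi, List.getElem?_eq_getElem hj] at this
    exact this
  have hlast : ∀ x ∈ l, x ≤ l.getLast hne := by
    intro x hx
    have h1 := List.dropLast_append_getLast hne
    rw [← h1] at hx hs
    rcases List.mem_append.1 hx with hx | hx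
    · exact ((List.pairwise_append.1 hs).2.2 x hx _ (by simp)).le
    · rw [List.mem_singleton] at hx
      exact hx.le
  have hlm : l.getLast hne ∈ l := List.getLast_mem hne
  have hlH : l.getLast hne ∈ H := (hl (_, 0)).2.1 hlm
  rw [← hr] at hlH
  obtain ⟨c, hc⟩ := hlH
  refine ⟨c, ?_⟩
  have hs' : ((List.range (c + 1)).map h).Pairwise (· < ·) := by
    rw [List.pairwise_map]
    exact (List.pairwise_lt_range).imp fun hab => hh hab
  refine hs.eq_of_mem_iff hs' fun m => ?_
  constructor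
  · intro hm
    have h1 : m ∈ H := (hl (m, 0)).2.1 hm
    rw [← hr] at h1
    obtain ⟨i, rfl⟩ := h1
    have h2 := hlast _ hm
    rw [← hc, hh.le_iff_le] at h2
    exact List.mem_map.2 ⟨i, List.mem_range.2 (by omega), rfl⟩
  · intro hm
    obtain ⟨i, hi, rfl⟩ := List.mem_map.1 hm
    have hi' := List.mem_range.1 hi
    refine (hl (h i, 0)).2.2 ⟨?_, l.getLast hne, hlm, ?_⟩
    · rw [← hr]; exact ⟨i, rfl⟩
    · rw [← hc]
      exact hh.monotone (by omega)

theorem lastN_range (b : ℕ) (h : ℕ → ℕ) (j : ℕ) :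
    lastN b (Nat.factorial (j + 1)) ((List.range (2 * Nat.factorial (j + 1))).map h) =
      blkN b h j := by
  unfold lastN blkN
  rw [two_mul, List.range_add, List.map_append,
    List.drop_left' (by simp), List.map_map, List.map_map]
  have key : ∀ (f : ℕ → ℕ) (n : ℕ), ((List.range n).map f).sum = ∑ i ∈ Finset.range n, f i := by
    intro f n
    induction n with
    | zero => simp
    | succ n ih => rw [List.range_succ, List.map_append, List.sum_append, ih,
        Finset.sum_range_succ]; simp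
  exact key _ _

theorem lev_blocks {Z : Set ℕ} {L : ℕ} {H : Set ℕ} (hH : LevN Z L (· ∈ H)) {h : ℕ → ℕ}
    (hh : StrictMono h) (hr : Set.range h = H) (b : ℕ) :
    LevN Z (L + 2) (· ∈ Set.range (blkN b h)) := by
  have h1 : Lev Z (L + 1) fun x : ℕ × (List ℕ × ℕ) => Ini H x.2.1 ∧
      (x.2.1.length = 2 * Nat.factorial (x.2.2 + 1) ∧
        x.1 = lastN b (Nat.factorial (x.2.2 + 1)) x.2.1) := by
    have hf : Primrec fun x : ℕ × (List ℕ × ℕ) => Nat.factorial (x.2.2 + 1) :=
      primrec_fact.comp (Primrec.succ.comp (Primrec.snd.comp Primrec.snd))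
    have hl : Primrec fun x : ℕ × (List ℕ × ℕ) => x.2.1 := Primrec.fst.comp Primrec.snd
    refine Lev.and ((lev_Ini hH).subst (g := fun x : ℕ × (List ℕ × ℕ) => x.2.1) hl.to_comp)
      (Lev.and ?_ ?_)
    · exact Lev.of_primrec (Primrec.eq.comp (Primrec.list_length.comp hl)
        (Primrec.nat_mul.comp (Primrec.const 2) hf))
    · exact Lev.of_primrec (Primrec.eq.comp Primrec.fst ((primrec_lastN b).comp hf hl))
  refine lev_iff.1 (h1.ex.congr fun x => ?_)
  constructor
  · rintro ⟨⟨l, j⟩, hl, hlen, hx⟩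
    have hne : l ≠ [] := by
      rintro rfl
      have h2 : 0 = 2 * Nat.factorial (j + 1) := hlen
      have h3 := Nat.factorial_pos (j + 1)
      omega
    obtain ⟨c, rfl⟩ := ini_eq hh hr hl hne
    have hlen' : c + 1 = 2 * Nat.factorial (j + 1) := by simpa using hlen
    refine ⟨j, ?_⟩
    rw [show x = lastN b (Nat.factorial (j + 1)) ((List.range (c + 1)).map h) from hx, hlen',
      lastN_range]
  · rintro ⟨j, rfl⟩
    refine ⟨((List.range (2 * Nat.factorial (j + 1))).map h, j), ini_range hh hr _, ?_,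
      (lastN_range b h j).symm⟩
    show ((List.range (2 * Nat.factorial (j + 1))).map h).length = _
    rw [List.length_map, List.length_range]

/-- **Main theorem of the library.** -/
theorem main {Z : Set ℕ} {r s N₀ : ℕ} {R : Fin s → (Fin r → ℕ) → Prop}
    (hR : Lev Z N₀ fun x : Fin s × (Fin r → ℕ) => R x.1 x.2) {b : ℕ} (hb : 2 ≤ b) :
    ∃ X : Set ℕ, LevN Z (N₀ + 6 * r + 2) (· ∈ X) ∧ X.Infinite ∧ 0 ∉ X ∧
      ∀ φ : Form s r, ∃ m, ∀ F F' : Finset ℕ, (F : Set ℕ) ⊆ X → (F' : Set ℕ) ⊆ X →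
        F.Nonempty → F'.Nonempty → (∀ x ∈ F, m ≤ x) → (∀ x ∈ F', m ≤ x) →
        (Sat R b (∑ x ∈ F, x) φ (fun _ => ∅) ↔ Sat R b (∑ x ∈ F', x) φ fun _ => ∅) := by
  classical
  have hU : LevN Z N₀ (· ∈ (Set.univ : Set ℕ)) := by
    have h0 : LevN Z 0 (fun _ : ℕ => true = true) := LevN.comp (Computable.const true)
    exact (h0.mono (Nat.zero_le _)).congr fun x => by simp
  obtain ⟨H, _, hH, hHN, hom⟩ := exists_homog Set.infinite_univ hU hR
  set h : ℕ → ℕ := Nat.nth (· ∈ H) with hh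
  have hmono : StrictMono h := Nat.nth_strictMono hH
  have hr : Set.range h = H := Nat.range_nth_of_infinite hH
  have hhH : ∀ i, h i ∈ H := fun i => by rw [← hr]; exact ⟨i, rfl⟩
  let R' : Fin s → (Fin r → ℕ) → Prop := fun a p => R a fun i => h (p i)
  have hinv : ∀ a, OrdInv (R' a) := fun a x y hxy hx => (hom a _ _ (fun i => hhH _)
    (fun i => hhH _) fun i j => by rw [hmono.lt_iff_lt, hmono.lt_iff_lt]; exact hxy i j).1 hx
  refine ⟨Set.range (blkN b h), lev_blocks hHN hmono hr b, ?_, ?_, ?_⟩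
  · exact Set.infinite_range_of_injective fun j j' he => blkN_inj hb hmono he
  · rintro ⟨j, hj⟩
    have := blkN_pos hb hmono j
    omega
  · intro φ
    obtain ⟨M, hM0, hM⟩ := (WL_finQ hinv φ).per (∅ : Set ℕ)
    have key : ∀ F : Finset ℕ, (F : Set ℕ) ⊆ Set.range (blkN b h) → F.Nonempty →
        (∀ x ∈ F, ∑ j ∈ Finset.range M, blkN b h j + 1 ≤ x) →
        (Sat R b (∑ x ∈ F, x) φ (fun _ => ∅) ↔ List.replicate M (∅ : Set ℕ) ∈ WL R' φ) := by
      intro F hF hne hFm
      obtain ⟨S, t, ht, hcard, hSh, hsum⟩ := sum_blocks hb hmono F hF hne hM0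
        (Nat.lt_succ_self _) hFm
      have hmem : ∀ q, q ∈ S.sort (· ≤ ·) ↔ q ∈ S := fun q => Finset.mem_sort _
      have hl : (S.sort (· ≤ ·)).Pairwise (· < ·) := (Finset.sortedLT_sort _).pairwise
      rw [hsum, sat_iff (R' := R') hl (fun q => by rw [supp_sum hb, hmem])
        (fun q hq => by rw [digit_sum hb, if_pos ((hmem q).1 hq)]) ?_ φ (fun _ => ∅)
        (fun J => Set.empty_subset _), wd_empty, Finset.length_sort, hcard]
      · exact hM t ht
      · intro a x p hxp
        refine hom a x _ (fun i => ?_) (fun i => hhH _) fun i i' => ?_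
        · have h1 : x i ∈ S.sort (· ≤ ·) := List.mem_iff_getElem?.2 ⟨_, hxp i⟩
          rw [← hr]
          exact hSh _ ((hmem _).1 h1)
        · rw [getElem?_lt hl (hxp i) (hxp i'), hmono.lt_iff_lt]
    refine ⟨∑ j ∈ Finset.range M, blkN b h j + 1, ?_⟩
    intro F F' hF hF' hne hne' hFm hFm'
    rw [key F hF hne hFm, key F' hF' hne' hFm']

end Pool.Agent.Y579.HM
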