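import Pool.Agent.Y579.HM.Ramsey2

/-!
Infinite sets on which finitely many relations of arity `r` depend only on the order type of their
arguments.
-/

namespace Pool.Agent.Y579.HM

open Encodable

/-- long increasing lists far out in an infinite set -/
theorem ext_list {H : Set ℕ} (hH : H.Infinite) (k : ℕ) : ∀ M : ℕ, ∃ B : List ℕ, B.length = k ∧
    B.Pairwise (· < ·) ∧ ∀ x ∈ B, x ∈ H ∧ M < x := by
  induction k with
  | zero => exact fun M => ⟨[], rfl, List.Pairwise.nil, by simp⟩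
  | succ k ih =>
    intro M
    obtain ⟨b, hb, hMb⟩ := hH.exists_gt M
    obtain ⟨B, h1, h2, h3⟩ := ih b
    refine ⟨b :: B, by simp [h1], List.pairwise_cons.2 ⟨fun x hx => (h3 x hx).2, h2⟩, ?_⟩
    intro x hx
    rcases List.mem_cons.1 hx with rfl | hx
    · exact ⟨hb, hMb⟩
    · exact ⟨(h3 x hx).1, hMb.trans (h3 x hx).2⟩

/-- a representation of two tuples of the same order type -/
theorem exists_repr {H : Set ℕ} (hH : H.Infinite) {r : ℕ} (x y : Fin r → ℕ) (hx : ∀ i, x i ∈ H)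
    (hy : ∀ i, y i ∈ H) (hxy : ∀ i j, x i < x j ↔ y i < y j) :
    ∃ (τ : Fin r → Fin r) (t t' : List ℕ), t.length = r ∧ t'.length = r ∧
      t.Pairwise (· < ·) ∧ t'.Pairwise (· < ·) ∧ (∀ z ∈ t, z ∈ H) ∧ (∀ z ∈ t', z ∈ H) ∧
      (x = fun i => t.getD (τ i) 0) ∧ y = fun i => t'.getD (τ i) 0 := by
  classical
  have heq : ∀ i j, x i = x j → y i = y j := by
    intro i j h
    have h1 := hxy i j
    have h2 := hxy j i
    omega
  -- the map of the values
  let φ : ℕ → ℕ := fun v => if h : ∃ i, x i = v then y h.choose else 0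
  have hφ : ∀ i, φ (x i) = y i := by
    intro i
    have h : ∃ j, x j = x i := ⟨i, rfl⟩
    show (if h : ∃ j, x j = x i then y h.choose else 0) = y i
    rw [dif_pos h]
    exact heq _ _ h.choose_spec
  set V := (Finset.univ.image x).sort (· ≤ ·) with hV
  have hVm : ∀ v, v ∈ V ↔ ∃ i, x i = v := by
    intro v
    rw [hV, Finset.mem_sort, Finset.mem_image]
    simp
  have hVs : V.Pairwise (· < ·) := by
    rw [hV]
    exact Finset.sortedLT_sort _ |>.pairwise
  have hVl : V.length ≤ r := by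
    rw [hV, Finset.length_sort]
    exact (Finset.card_image_le).trans (by simp)
  obtain ⟨B, hB1, hB2, hB3⟩ := ext_list hH (r - V.length) V.sum
  obtain ⟨B', hB1', hB2', hB3'⟩ := ext_list hH (r - V.length) (V.map φ).sum
  have hVs' : (V.map φ).Pairwise (· < ·) := by
    rw [List.pairwise_map]
    refine hVs.imp_of_mem ?_
    intro a b ha hb hab
    obtain ⟨i, rfl⟩ := (hVm a).1 ha
    obtain ⟨j, rfl⟩ := (hVm b).1 hb
    rw [hφ, hφ]
    exact (hxy i j).1 hab
  have hle : ∀ (l : List ℕ), ∀ a ∈ l, a ≤ l.sum := fun l a ha => List.single_le_sum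
    (fun _ _ => Nat.zero_le _) a ha
  have hidx : ∀ i, V.idxOf (x i) < V.length := fun i => List.idxOf_lt_length_of_mem
    ((hVm _).2 ⟨i, rfl⟩)
  refine ⟨fun i => ⟨V.idxOf (x i), (hidx i).trans_le hVl⟩, V ++ B, V.map φ ++ B', ?_, ?_, ?_, ?_,
    ?_, ?_, ?_, ?_⟩
  · rw [List.length_append, hB1]; omega
  · rw [List.length_append, hB1', List.length_map]; omega
  · refine List.pairwise_append.2 ⟨hVs, hB2, fun a ha b hb => ?_⟩
    exact lt_of_le_of_lt (hle V a ha) (hB3 b hb).2
  · refine List.pairwise_append.2 ⟨hVs', hB2', fun a ha b hb => ?_⟩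
    exact lt_of_le_of_lt (hle _ a ha) (hB3' b hb).2
  · intro z hz
    rcases List.mem_append.1 hz with hz | hz
    · obtain ⟨i, rfl⟩ := (hVm z).1 hz
      exact hx i
    · exact (hB3 z hz).1
  · intro z hz
    rcases List.mem_append.1 hz with hz | hz
    · obtain ⟨v, hv, rfl⟩ := List.mem_map.1 hz
      obtain ⟨i, rfl⟩ := (hVm v).1 hv
      rw [hφ]
      exact hy i
    · exact (hB3' z hz).1
  · funext i
    have h1 := hidx i
    simp only [List.getD_eq_getElem?_getD]
    rw [List.getElem?_append_left h1, List.getElem?_eq_getElem h1]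
    simp
  · funext i
    have h1 := hidx i
    simp only [List.getD_eq_getElem?_getD]
    rw [List.getElem?_append_left (by rw [List.length_map]; exact h1), List.getElem?_map,
      List.getElem?_eq_getElem h1]
    simp [hφ]

/-- `H` is homogeneous for the relation `R` of arity `r`. -/
def Homog {r : ℕ} (H : Set ℕ) (R : (Fin r → ℕ) → Prop) : Prop :=
  ∀ x y : Fin r → ℕ, (∀ i, x i ∈ H) → (∀ i, y i ∈ H) → (∀ i j, x i < x j ↔ y i < y j) →
    (R x ↔ R y)

theorem exists_homog {Z : Set ℕ} {r s N : ℕ} {A : Set ℕ} {R : Fin s → (Fin r → ℕ) → Prop} (hA : A.Infinite)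
    (hAN : LevN Z N (· ∈ A)) (hR : Lev Z N fun x : Fin s × (Fin r → ℕ) => R x.1 x.2) :
    ∃ H ⊆ A, H.Infinite ∧ LevN Z (N + 6 * r) (· ∈ H) ∧ ∀ a, Homog H (R a) := by
  let P : (Fin s × (Fin r → Fin r)) → List ℕ → Prop :=
    fun a t => R a.1 fun i => t.getD (a.2 i) 0
  have hP : Lev Z N fun x : (Fin s × (Fin r → Fin r)) × List ℕ => P x.1 x.2 := by
    refine hR.subst (g := fun x : (Fin s × (Fin r → Fin r)) × List ℕ =>
      (x.1.1, fun i => x.2.getD (x.1.2 i) 0)) ?_
    refine ((Primrec.fst.comp Primrec.fst).pair ?_).to_comp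
    refine Primrec.fin_curry.2 ?_
    refine (Primrec.list_getD 0).comp (Primrec.snd.comp Primrec.fst) ?_
    exact Primrec.fin_val.comp (Primrec.fin_app.comp
      (Primrec.snd.comp (Primrec.fst.comp Primrec.fst)) Primrec.snd)
  obtain ⟨H, hHA, hH, hHN, hom⟩ := ramsey r hA hAN hP
  refine ⟨H, hHA, hH, hHN, fun a x y hx hy hxy => ?_⟩
  obtain ⟨τ, t, t', h1, h2, h3, h4, h5, h6, h7, h8⟩ := exists_repr hH x y hx hy hxy
  have := hom t t' h1 h2 h3 h4 h5 h6 (a, τ)
  rw [h7, h8]
  exact this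

end Pool.Agent.Y579.HM
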