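import Mathlib

/-!
Predicates obtained from computable predicates and a set `Z` by Boolean operations and at most `n`
nested quantifiers over the natural numbers.
-/

namespace Pool.Agent.Y579.HM

open Encodable

/-- `LevN Z n p`: the predicate `p` on the natural numbers is obtained from computable predicates
and predicates `g x ∈ Z`, `g` a computable function, by negations, conjunctions and at most `n`
nested quantifiers over the natural numbers. In particular `p` is `Δ⁰_{n+1}` relative to `Z`, that
is, computable in the `n`-th Turing jump of `Z`. -/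
inductive LevN (Z : Set ℕ) : ℕ → (ℕ → Prop) → Prop
  | comp {p : ℕ → Bool} (hp : Computable p) : LevN Z 0 fun x => p x = true
  | orc {g : ℕ → ℕ} (hg : Computable g) : LevN Z 0 fun x => g x ∈ Z
  | not {n : ℕ} {p : ℕ → Prop} (hp : LevN Z n p) : LevN Z n fun x => ¬ p x
  | and {n : ℕ} {p q : ℕ → Prop} (hp : LevN Z n p) (hq : LevN Z n q) :
      LevN Z n fun x => p x ∧ q x
  | ex {n : ℕ} {p : ℕ → Prop} (hp : LevN Z n p) : LevN Z (n + 1) fun x => ∃ k, p (Nat.pair x k)

variable {Z : Set ℕ}

theorem LevN.subst {n : ℕ} {p : ℕ → Prop} (hp : LevN Z n p) : ∀ {g : ℕ → ℕ}, Computable g →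
    LevN Z n fun x => p (g x) := by
  induction hp with
  | comp hp => intro g hg; exact LevN.comp (hp.comp hg)
  | orc hp => intro g hg; exact LevN.orc (hp.comp hg)
  | not _ ih => intro g hg; exact (ih hg).not
  | and _ _ ih1 ih2 => intro g hg; exact (ih1 hg).and (ih2 hg)
  | @ex n p _ ih =>
    intro g hg
    have h1 : Computable fun y : ℕ => Nat.pair (g y.unpair.1) y.unpair.2 :=
      Primrec₂.natPair.to_comp.comp (hg.comp (Primrec.fst.comp Primrec.unpair).to_comp)
        (Primrec.snd.comp Primrec.unpair).to_comp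
    have h2 := (ih h1).ex
    simpa using h2

theorem LevN.congr {n : ℕ} {p q : ℕ → Prop} (hp : LevN Z n p) (h : ∀ x, p x ↔ q x) : LevN Z n q := by
  have e : p = q := funext fun x => propext (h x)
  exact e ▸ hp

theorem LevN.succ {n : ℕ} {p : ℕ → Prop} (hp : LevN Z n p) : LevN Z (n + 1) p := by
  have h1 : Computable fun y : ℕ => y.unpair.1 := (Primrec.fst.comp Primrec.unpair).to_comp
  exact ((hp.subst h1).ex).congr fun x => by simp

theorem LevN.mono {m n : ℕ} {p : ℕ → Prop} (hp : LevN Z m p) (h : m ≤ n) : LevN Z n p := by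
  induction n, h using Nat.le_induction with
  | base => exact hp
  | succ k _ ih => exact ih.succ

/-- the same for predicates on other coded types -/
def Lev (Z : Set ℕ) {α : Type} [Primcodable α] (n : ℕ) (p : α → Prop) : Prop :=
  ∃ q : ℕ → Prop, LevN Z n q ∧ ∀ a, p a ↔ q (encode a)

section
variable {α β γ : Type} [Primcodable α] [Primcodable β] [Primcodable γ]

theorem Lev.congr {n : ℕ} {p q : α → Prop} (hp : Lev Z n p) (h : ∀ x, p x ↔ q x) : Lev Z n q := by
  have e : p = q := funext fun x => propext (h x)
  exact e ▸ hp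

theorem Lev.mono {m n : ℕ} {p : α → Prop} (hp : Lev Z m p) (h : m ≤ n) : Lev Z n p := by
  obtain ⟨q, hq, h1⟩ := hp
  exact ⟨q, hq.mono h, h1⟩

theorem lev_iff {n : ℕ} {p : ℕ → Prop} : Lev Z n p ↔ LevN Z n p := by
  constructor
  · rintro ⟨q, hq, h⟩
    exact hq.congr fun x => (h x).symm
  · intro h
    exact ⟨p, h, fun _ => Iff.rfl⟩

theorem Lev.of_comp {n : ℕ} {p : α → Bool} (hp : Computable p) : Lev Z n fun a => p a = true := by
  refine Lev.mono (m := 0) ⟨fun x => (((decode (α := α) x).map p).getD false) = true, ?_, ?_⟩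
    (Nat.zero_le n)
  · refine LevN.comp ?_
    have h1 : Computable fun x : ℕ => decode (α := α) x := Computable.decode
    have h2 : Computable fun x : ℕ => (decode (α := α) x).map p :=
      Computable.option_map h1 (hp.comp Computable.snd).to₂
    exact Computable.option_getD h2 (Computable.const false)
  · intro a
    simp

theorem Lev.not {n : ℕ} {p : α → Prop} (hp : Lev Z n p) : Lev Z n fun a => ¬ p a := by
  obtain ⟨q, hq, h⟩ := hp
  exact ⟨_, hq.not, fun a => not_congr (h a)⟩

theorem Lev.and {n : ℕ} {p q : α → Prop} (hp : Lev Z n p) (hq : Lev Z n q) :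
    Lev Z n fun a => p a ∧ q a := by
  obtain ⟨p', hp', h1⟩ := hp
  obtain ⟨q', hq', h2⟩ := hq
  exact ⟨_, hp'.and hq', fun a => and_congr (h1 a) (h2 a)⟩

theorem Lev.or {n : ℕ} {p q : α → Prop} (hp : Lev Z n p) (hq : Lev Z n q) :
    Lev Z n fun a => p a ∨ q a :=
  ((hp.not.and hq.not).not).congr fun a => by tauto

theorem Lev.imp {n : ℕ} {p q : α → Prop} (hp : Lev Z n p) (hq : Lev Z n q) :
    Lev Z n fun a => p a → q a :=
  ((hp.and hq.not).not).congr fun a => by tauto

theorem Lev.iff {n : ℕ} {p q : α → Prop} (hp : Lev Z n p) (hq : Lev Z n q) :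
    Lev Z n fun a => (p a ↔ q a) :=
  ((hp.imp hq).and (hq.imp hp)).congr fun a => by tauto

theorem Lev.subst {n : ℕ} {p : β → Prop} (hp : Lev Z n p) {g : α → β} (hg : Computable g) :
    Lev Z n fun a => p (g a) := by
  obtain ⟨q, hq, h⟩ := hp
  have h1 : Computable fun x : ℕ => (((decode (α := α) x).map fun a => encode (g a)).getD 0) :=
    Computable.option_getD (Computable.option_map Computable.decode
      ((Computable.encode.comp (hg.comp Computable.snd)).to₂)) (Computable.const 0)
  exact ⟨_, hq.subst h1, fun a => by simp [h]⟩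

theorem Lev.ex {n : ℕ} {p : α × β → Prop} (hp : Lev Z n p) : Lev Z (n + 1) fun a => ∃ b, p (a, b) := by
  classical
  -- a predicate on `α × ℕ`
  have h1 : Lev Z n fun x : α × ℕ => ∃ b, decode (α := β) x.2 = some b ∧ p (x.1, b) := by
    obtain ⟨q, hq, h⟩ := hp
    -- the code of `(x.1, b)`
    have h2 : Computable fun x : α × ℕ => ((decode (α := β) x.2).map fun b => encode (x.1, b)) := by
      refine Computable.option_map (Computable.decode.comp Computable.snd) ?_
      exact (Computable.encode.comp ((Computable.fst.comp Computable.fst).pair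
        Computable.snd)).to₂
    have h3 : Computable fun x : α × ℕ =>
        ((decode (α := β) x.2).map fun b => encode (x.1, b)).getD 0 :=
      Computable.option_getD h2 (Computable.const 0)
    have h4 : Computable fun x : α × ℕ => (decode (α := β) x.2).isSome :=
      Primrec.option_isSome.to_comp.comp (Computable.decode.comp Computable.snd)
    have h5 : Lev Z n q := lev_iff.2 hq
    refine ((Lev.of_comp h4).and (h5.subst h3)).congr fun x => ?_
    cases hd : decode (α := β) x.2 with
    | none => simp
    | some b =>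
      have := h (x.1, b)
      simpa using this.symm
  obtain ⟨q, hq, h⟩ := h1
  refine ⟨_, hq.ex, fun a => ?_⟩
  constructor
  · rintro ⟨b, hb⟩
    refine ⟨encode b, ?_⟩
    have := (h (a, encode b)).1 ⟨b, encodek b, hb⟩
    simpa using this
  · rintro ⟨k, hk⟩
    have h6 : q (encode (a, k)) := by simpa using hk
    obtain ⟨b, _, hb⟩ := (h (a, k)).2 h6
    exact ⟨b, hb⟩

theorem Lev.all {n : ℕ} {p : α × β → Prop} (hp : Lev Z n p) : Lev Z (n + 1) fun a => ∀ b, p (a, b) :=
  (hp.not.ex.not).congr fun a => by simp

theorem Lev.of_dec {n : ℕ} {p : α → Prop} [DecidablePred p] (hp : PrimrecPred p) : Lev Z n p := by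
  have h1 : Computable fun a => decide (p a) := hp.decide.to_comp
  exact (Lev.of_comp h1).congr fun a => by simp

end

end Pool.Agent.Y579.HM
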