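import Pool.Agent.Y579.HM.Words
import Pool.Agent.Y579.HM.Hom

/-!
Monadic second-order logic over the set of the positions of the nonzero digits of a number.
-/

namespace Pool.Agent.Y579.HM

/-- Formulas of monadic second-order logic, with `s` relation symbols of arity `r`. There is one
kind of variables, for sets of positions; a variable for a position is a variable for a
one-element set. `ex₁ J φ` says that there is a position `J` such that `φ`, `ex₂ J φ` that there
is a set `J` of positions such that `φ`. -/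
inductive Form (s r : ℕ) : Type
  | lt (J K : ℕ) : Form s r
  | mem (J K : ℕ) : Form s r
  | dig (d J : ℕ) : Form s r
  | rel (a : Fin s) (J : Fin r → ℕ) : Form s r
  | neg (φ : Form s r) : Form s r
  | and (φ ψ : Form s r) : Form s r
  | ex₁ (J : ℕ) (φ : Form s r) : Form s r
  | ex₂ (J : ℕ) (φ : Form s r) : Form s r

/-- The set of the positions of the nonzero digits of `n` in base `b`. -/
def supp (b n : ℕ) : Set ℕ := {q | n / b ^ q % b ≠ 0}

/-- Truth of a formula in the structure of the number `n`: its elements are the positions of the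
nonzero digits of `n` in base `b`, with the order of the natural numbers, the relations `R a` and
the values of the digits; `v` is the assignment of the variables. -/
def Sat {s r : ℕ} (R : Fin s → (Fin r → ℕ) → Prop) (b n : ℕ) : Form s r → (ℕ → Set ℕ) → Prop
  | .lt J K, v => ∃ x ∈ v J, ∃ y ∈ v K, x < y
  | .mem J K, v => ∃ x ∈ v J, x ∈ v K
  | .dig d J, v => ∃ x ∈ v J, n / b ^ x % b = d
  | .rel a J, v => ∃ x : Fin r → ℕ, (∀ i, x i ∈ v (J i)) ∧ R a x
  | .neg φ, v => ¬ Sat R b n φ v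
  | .and φ ψ, v => Sat R b n φ v ∧ Sat R b n ψ v
  | .ex₁ J φ, v => ∃ x ∈ supp b n, Sat R b n φ (Function.update v J {x})
  | .ex₂ J φ, v => ∃ T ⊆ supp b n, Sat R b n φ (Function.update v J T)

section
variable {s r : ℕ}

/-- letters which differ at most at the variable `J` -/
def Off (J : ℕ) (c' c : Set ℕ) : Prop := ∀ K, K ≠ J → (K ∈ c' ↔ K ∈ c)

/-- the variable `J` occurs exactly once -/
def Sing (J : ℕ) : Set (List (Set ℕ)) :=
  atomL ![J] (fun _ => True) ∩ (atomL ![J, J] fun x => x 0 < x 1)ᶜ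

/-- The language of a formula. -/
def WL (R' : Fin s → (Fin r → ℕ) → Prop) : Form s r → Set (List (Set ℕ))
  | .lt J K => atomL ![J, K] fun x => x 0 < x 1
  | .mem J K => atomL ![J, K] fun x => x 0 = x 1
  | .dig d J => {w | d = 1 ∧ ∃ c ∈ w, J ∈ c}
  | .rel a J => atomL J (R' a)
  | .neg φ => (WL R' φ)ᶜ
  | .and φ ψ => WL R' φ ∩ WL R' ψ
  | .ex₁ J φ => proj (Off J) (Sing J ∩ WL R' φ)
  | .ex₂ J φ => proj (Off J) (WL R' φ)

theorem Sing_finQ (J : ℕ) : FinQ (Sing J) :=
  (atomL_finQ _ fun _ _ _ _ => trivial).inter (atomL_finQ _ fun _ _ h h' => (h 0 1).1 h').compl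

theorem WL_finQ {R' : Fin s → (Fin r → ℕ) → Prop} (hR : ∀ a, OrdInv (R' a)) (φ : Form s r) :
    FinQ (WL R' φ) := by
  induction φ with
  | lt J K => exact atomL_finQ _ fun x y h h' => (h 0 1).1 h'
  | mem J K =>
    refine atomL_finQ _ fun x y h h' => ?_
    have h1 := h 0 1
    have h2 := h 1 0
    have h3 : x 0 = x 1 := h'
    show y 0 = y 1
    omega
  | dig d J =>
    refine FinQ.of_inv (fun w => ∃ c ∈ w, J ∈ c) fun w w' h y => ?_
    have h' : (∃ c ∈ w, J ∈ c) ↔ ∃ c ∈ w', J ∈ c := by rw [h]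
    rintro ⟨hd, c, hc, hJ⟩
    refine ⟨hd, ?_⟩
    rcases List.mem_append.1 hc with hc | hc
    · obtain ⟨c', hc', hJ'⟩ := h'.1 ⟨c, hc, hJ⟩
      exact ⟨c', List.mem_append_left _ hc', hJ'⟩
    · exact ⟨c, List.mem_append_right _ hc, hJ⟩
  | rel a J => exact atomL_finQ J (hR a)
  | neg φ ih => exact ih.compl
  | and φ ψ ih1 ih2 => exact ih1.inter ih2
  | ex₁ J φ ih => exact ((Sing_finQ J).inter ih).proj _
  | ex₂ J φ ih => exact ih.proj _

/-- The word of an assignment along a list of positions. -/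
def wd (l : List ℕ) (v : ℕ → Set ℕ) : List (Set ℕ) := l.map fun x => {J | x ∈ v J}

theorem atom_iff {l : List ℕ} {v : ℕ → Set ℕ} (hv : ∀ J, v J ⊆ {x | x ∈ l}) {m : ℕ}
    (J : Fin m → ℕ) {S S' : (Fin m → ℕ) → Prop}
    (hS : ∀ x p : Fin m → ℕ, (∀ i, l[p i]? = some (x i)) → (S x ↔ S' p)) :
    (∃ x : Fin m → ℕ, (∀ i, x i ∈ v (J i)) ∧ S x) ↔ wd l v ∈ atomL J S' := by
  constructor
  · rintro ⟨x, hx, hSx⟩
    have h1 : ∀ i, ∃ p, l[p]? = some (x i) := fun i => List.mem_iff_getElem?.1 (hv _ (hx i))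
    choose p hp using h1
    refine ⟨p, fun i => ⟨{J | x i ∈ v J}, ?_, hx i⟩, (hS x p hp).1 hSx⟩
    unfold wd
    rw [List.getElem?_map, hp i]
    rfl
  · rintro ⟨p, hp, hSp⟩
    have h1 : ∀ i, ∃ x, l[p i]? = some x ∧ x ∈ v (J i) := by
      intro i
      obtain ⟨c, hc, hJ⟩ := hp i
      unfold wd at hc
      rw [List.getElem?_map, Option.map_eq_some_iff] at hc
      obtain ⟨x, hx, rfl⟩ := hc
      exact ⟨x, hx, hJ⟩
    choose x hx hxJ using h1
    exact ⟨x, hxJ, (hS x p hx).2 hSp⟩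

theorem getElem?_lt {l : List ℕ} (hl : l.Pairwise (· < ·)) {i j x y : ℕ} (hi : l[i]? = some x)
    (hj : l[j]? = some y) : x < y ↔ i < j := by
  obtain ⟨hi1, rfl⟩ := List.getElem?_eq_some_iff.1 hi
  obtain ⟨hj1, rfl⟩ := List.getElem?_eq_some_iff.1 hj
  have key : ∀ (i j : ℕ) (hi : i < l.length) (hj : j < l.length), i < j → l[i] < l[j] :=
    fun i j hi hj hij => List.pairwise_iff_getElem.1 hl i j hi hj hij
  constructor
  · intro h
    by_contra hcon
    rcases Nat.lt_or_ge j i with h1 | h1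
    · have := key j i hj1 hi1 h1
      omega
    · have e : i = j := by omega
      subst e
      exact lt_irrefl _ h
  · exact key i j hi1 hj1

theorem lt_iff' {l : List ℕ} (hl : l.Pairwise (· < ·)) {v : ℕ → Set ℕ}
    (hv : ∀ J, v J ⊆ {x | x ∈ l}) (J K : ℕ) :
    (∃ x ∈ v J, ∃ y ∈ v K, x < y) ↔ wd l v ∈ atomL ![J, K] fun x => x 0 < x 1 := by
  have h1 := atom_iff hv ![J, K] (S := fun x => x 0 < x 1) (S' := fun x => x 0 < x 1)
    fun x p h => getElem?_lt hl (h 0) (h 1)
  refine Iff.trans ?_ h1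
  constructor
  · rintro ⟨x, hx, y, hy, hxy⟩
    refine ⟨![x, y], fun i => ?_, hxy⟩
    fin_cases i
    · exact hx
    · exact hy
  · rintro ⟨x, hx, hxy⟩
    exact ⟨x 0, hx 0, x 1, hx 1, hxy⟩

theorem mem_iff' {l : List ℕ} (hl : l.Pairwise (· < ·)) {v : ℕ → Set ℕ}
    (hv : ∀ J, v J ⊆ {x | x ∈ l}) (J K : ℕ) :
    (∃ x ∈ v J, x ∈ v K) ↔ wd l v ∈ atomL ![J, K] fun x => x 0 = x 1 := by
  have h1 := atom_iff hv ![J, K] (S := fun x => x 0 = x 1) (S' := fun x => x 0 = x 1)
    fun x p h => by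
      have h2 := getElem?_lt hl (h 0) (h 1)
      have h3 := getElem?_lt hl (h 1) (h 0)
      omega
  refine Iff.trans ?_ h1
  constructor
  · rintro ⟨x, hx, hx'⟩
    refine ⟨![x, x], fun i => ?_, rfl⟩
    fin_cases i
    · exact hx
    · exact hx'
  · rintro ⟨x, hx, hxy⟩
    refine ⟨x 0, hx 0, ?_⟩
    have := hx 1
    rw [← hxy] at this
    exact this

theorem upd_sub {l : List ℕ} {v : ℕ → Set ℕ} (hv : ∀ J, v J ⊆ {x | x ∈ l}) (J : ℕ) {T : Set ℕ}
    (hT : T ⊆ {x | x ∈ l}) (K : ℕ) : Function.update v J T K ⊆ {x | x ∈ l} := by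
  by_cases hK : K = J
  · subst hK
    rw [Function.update_self]
    exact hT
  · rw [Function.update_of_ne hK]
    exact hv K

/-- the words of the changed assignments -/
theorem off_iff {l : List ℕ} (hl : l.Pairwise (· < ·)) (v : ℕ → Set ℕ) (J : ℕ)
    (w' : List (Set ℕ)) : List.Forall₂ (Off J) w' (wd l v) ↔
      ∃ T ⊆ {x | x ∈ l}, w' = wd l (Function.update v J T) := by
  constructor
  · intro hw'
    let T : Set ℕ := {x | ∃ p : ℕ, l[p]? = some x ∧ ∃ c : Set ℕ, w'[p]? = some c ∧ J ∈ c}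
    have hT' : T ⊆ {x | x ∈ l} := by
      rintro x ⟨p, hp, _⟩
      have h1 : x ∈ l := List.mem_iff_getElem?.2 ⟨p, hp⟩
      exact h1
    have hlen : w'.length = l.length := by
      have := hw'.length_eq
      rw [this]
      simp [wd]
    refine ⟨T, hT', List.ext_getElem (by rw [hlen]; simp [wd]) fun p hp1 hp2 => ?_⟩
    have hpl : p < l.length := by omega
    have hp3 : p < (wd l v).length := by simpa [wd] using hpl
    have hoff : Off J w'[p] (wd l v)[p] := hw'.get hp1 hp3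
    ext K
    simp only [wd, List.getElem_map] at hoff ⊢
    by_cases hK : K = J
    · subst hK
      show K ∈ w'[p] ↔ l[p] ∈ Function.update v K T K
      rw [Function.update_self]
      constructor
      · intro hc
        exact ⟨p, List.getElem?_eq_getElem hpl, w'[p], List.getElem?_eq_getElem hp1, hc⟩
      · rintro ⟨p', hp', c, hc, hKc⟩
        have hpp : p' = p := by
          obtain ⟨h3, h4⟩ := List.getElem?_eq_some_iff.1 hp'
          have hnd : l.Nodup := hl.imp fun h => h.ne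
          exact (List.Nodup.getElem_inj_iff hnd).1 h4
        subst hpp
        rw [List.getElem?_eq_getElem hp1, Option.some_inj] at hc
        rw [hc]
        exact hKc
    · show K ∈ w'[p] ↔ l[p] ∈ Function.update v J T K
      rw [Function.update_of_ne hK]
      exact hoff K hK
  · rintro ⟨T, _, rfl⟩
    unfold wd
    rw [List.forall₂_map_left_iff, List.forall₂_map_right_iff]
    refine List.forall₂_same.2 fun x _ K hK => ?_
    show x ∈ Function.update v J T K ↔ x ∈ v K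
    rw [Function.update_of_ne hK]

theorem sing_iff {l : List ℕ} (hl : l.Pairwise (· < ·)) {v : ℕ → Set ℕ}
    (hv : ∀ J, v J ⊆ {x | x ∈ l}) (J : ℕ) : wd l v ∈ Sing J ↔ ∃ x, v J = {x} := by
  have h1 : (∃ x : Fin 1 → ℕ, (∀ i, x i ∈ v (![J] i)) ∧ True) ↔
      wd l v ∈ atomL ![J] (fun _ => True) := atom_iff hv ![J] fun _ _ _ => Iff.rfl
  have h2 := lt_iff' hl hv J J
  unfold Sing
  rw [Set.mem_inter_iff, Set.mem_compl_iff, ← h1, ← h2]
  constructor
  · rintro ⟨⟨x, hx, _⟩, h3⟩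
    refine ⟨x 0, Set.eq_singleton_iff_unique_mem.2 ⟨hx 0, fun y hy => ?_⟩⟩
    by_contra hne
    rcases lt_or_gt_of_ne hne with h4 | h4
    · exact h3 ⟨y, hy, x 0, hx 0, h4⟩
    · exact h3 ⟨x 0, hx 0, y, hy, h4⟩
  · rintro ⟨x, hx⟩
    refine ⟨⟨fun _ => x, fun i => ?_, trivial⟩, ?_⟩
    · have : v (![J] i) = {x} := by
        fin_cases i
        exact hx
      rw [this]
      rfl
    · rintro ⟨y, hy, z, hz, hyz⟩
      rw [hx] at hy hz
      have e1 : y = x := hy
      have e2 : z = x := hz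
      omega

theorem sat_iff {R R' : Fin s → (Fin r → ℕ) → Prop} {b n : ℕ} {l : List ℕ}
    (hl : l.Pairwise (· < ·)) (hsupp : ∀ q, q ∈ supp b n ↔ q ∈ l)
    (hdig : ∀ q ∈ l, n / b ^ q % b = 1)
    (hR : ∀ a, ∀ x p : Fin r → ℕ, (∀ i, l[p i]? = some (x i)) → (R a x ↔ R' a p))
    (φ : Form s r) : ∀ v : ℕ → Set ℕ, (∀ J, v J ⊆ {x | x ∈ l}) →
      (Sat R b n φ v ↔ wd l v ∈ WL R' φ) := by
  have hs : supp b n = {x | x ∈ l} := Set.ext hsupp
  induction φ with
  | lt J K => exact fun v hv => lt_iff' hl hv J K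
  | mem J K => exact fun v hv => mem_iff' hl hv J K
  | dig d J =>
    intro v hv
    show (∃ x ∈ v J, n / b ^ x % b = d) ↔ d = 1 ∧ ∃ c ∈ wd l v, J ∈ c
    constructor
    · rintro ⟨x, hx, hd⟩
      rw [hdig x (hv J hx)] at hd
      exact ⟨hd.symm, _, List.mem_map.2 ⟨x, hv J hx, rfl⟩, hx⟩
    · rintro ⟨hd, c, hc, hJ⟩
      obtain ⟨x, hxl, rfl⟩ := List.mem_map.1 hc
      exact ⟨x, hJ, by rw [hdig x hxl, hd]⟩
  | rel a J =>
    intro v hv
    exact atom_iff hv J (hR a)
  | neg φ ih =>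
    intro v hv
    exact not_congr (ih v hv)
  | and φ ψ ih1 ih2 =>
    intro v hv
    exact and_congr (ih1 v hv) (ih2 v hv)
  | ex₁ J φ ih =>
    intro v hv
    show (∃ x ∈ supp b n, Sat R b n φ (Function.update v J {x})) ↔
      ∃ w', List.Forall₂ (Off J) w' (wd l v) ∧ w' ∈ Sing J ∩ WL R' φ
    constructor
    · rintro ⟨x, hx, h⟩
      have hT : ({x} : Set ℕ) ⊆ {x | x ∈ l} := by
        rw [← hs]
        exact Set.singleton_subset_iff.2 hx
      refine ⟨wd l (Function.update v J {x}), (off_iff hl v J _).2 ⟨{x}, hT, rfl⟩, ?_,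
        (ih _ (upd_sub hv J hT)).1 h⟩
      exact (sing_iff hl (upd_sub hv J hT) J).2 ⟨x, Function.update_self _ _ _⟩
    · rintro ⟨w', hw', hsing, h⟩
      obtain ⟨T, hT, rfl⟩ := (off_iff hl v J _).1 hw'
      obtain ⟨x, hx⟩ := (sing_iff hl (upd_sub hv J hT) J).1 hsing
      rw [Function.update_self] at hx
      subst hx
      refine ⟨x, ?_, (ih _ (upd_sub hv J hT)).2 h⟩
      rw [hs]
      exact hT rfl
  | ex₂ J φ ih =>
    intro v hv
    show (∃ T ⊆ supp b n, Sat R b n φ (Function.update v J T)) ↔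
      ∃ w', List.Forall₂ (Off J) w' (wd l v) ∧ w' ∈ WL R' φ
    rw [hs]
    constructor
    · rintro ⟨T, hT, h⟩
      exact ⟨wd l (Function.update v J T), (off_iff hl v J _).2 ⟨T, hT, rfl⟩,
        (ih _ (upd_sub hv J hT)).1 h⟩
    · rintro ⟨w', hw', h⟩
      obtain ⟨T, hT, rfl⟩ := (off_iff hl v J _).1 hw'
      exact ⟨T, hT, (ih _ (upd_sub hv J hT)).2 h⟩

theorem wd_empty (l : List ℕ) : wd l (fun _ => ∅) = List.replicate l.length ∅ := by
  unfold wd
  rw [show (fun x : ℕ => {J : ℕ | x ∈ (∅ : Set ℕ)}) = fun _ => ∅ from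
    funext fun x => by ext; simp]
  exact List.map_const'

end

end Pool.Agent.Y579.HM
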