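import Pool.Agent.Y579.HM.Mso
import Pool.Agent.H645R2.HT.Univ

/-!
Parities of gap sums are definable.
-/

namespace Pool.Agent.Y579.HM

open Pool.Agent.H645R2.HT

/-- the values at neighbours are right -/
def Adj (γ : ℕ → ℕ → Bool) (Y : Set ℕ) : List ℕ → Prop
  | [] => True
  | [_] => True
  | a :: b :: l => (b ∈ Y ↔ ¬ (a ∈ Y ↔ γ a b = true)) ∧ Adj γ Y (b :: l)

theorem Adj.congr {γ : ℕ → ℕ → Bool} {Y Y' : Set ℕ} : ∀ {l : List ℕ}, (∀ x ∈ l, x ∈ Y ↔ x ∈ Y') →
    Adj γ Y l → Adj γ Y' l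
  | [], _, _ => trivial
  | [_], _, _ => trivial
  | a :: b :: l, h, ⟨h1, h2⟩ => by
    refine ⟨?_, Adj.congr (fun x hx => h x (List.mem_cons_of_mem _ hx)) h2⟩
    rw [← h a (by simp), ← h b (by simp)]
    exact h1

theorem adj_iff {γ : ℕ → ℕ → Bool} {Y : Set ℕ} : ∀ {l : List ℕ}, l.Pairwise (· < ·) →
    ((∀ u ∈ l, ∀ v ∈ l, u < v → (¬ ∃ w ∈ l, u < w ∧ w < v) → (v ∈ Y ↔ ¬ (u ∈ Y ↔ γ u v = true))) ↔
      Adj γ Y l)
  | [], _ => by simp [Adj]
  | [a], _ => by
    refine iff_of_true ?_ trivial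
    intro u hu v hv huv
    rw [List.mem_singleton] at hu hv
    omega
  | a :: b :: l, hl => by
    have hl' : (b :: l).Pairwise (· < ·) := (List.pairwise_cons.1 hl).2
    have ha : ∀ x ∈ b :: l, a < x := (List.pairwise_cons.1 hl).1
    have hb : ∀ x ∈ l, b < x := (List.pairwise_cons.1 hl').1
    have ih := adj_iff (γ := γ) (Y := Y) hl'
    constructor
    · intro h
      refine ⟨?_, ih.1 ?_⟩
      · refine h a (by simp) b (by simp) (ha b (by simp)) ?_
        rintro ⟨w, hw, h1, h2⟩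
        rcases List.mem_cons.1 hw with rfl | hw
        · omega
        · rcases List.mem_cons.1 hw with rfl | hw
          · omega
          · have := hb w hw
            omega
      · intro u hu v hv huv hno
        refine h u (List.mem_cons_of_mem _ hu) v (List.mem_cons_of_mem _ hv) huv ?_
        rintro ⟨w, hw, h1, h2⟩
        rcases List.mem_cons.1 hw with rfl | hw
        · have := ha u hu
          omega
        · exact hno ⟨w, hw, h1, h2⟩
    · rintro ⟨h1, h2⟩ u hu v hv huv hno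
      rcases List.mem_cons.1 hu with rfl | hu'
      · have hv' : v ∈ b :: l := by
          rcases List.mem_cons.1 hv with rfl | hv
          · omega
          · exact hv
        rcases List.mem_cons.1 hv' with rfl | hv'
        · exact h1
        · exact absurd ⟨b, by simp, ha b (by simp), hb v hv'⟩ hno
      · have hau : a < u := ha u hu'
        have hv' : v ∈ b :: l := by
          rcases List.mem_cons.1 hv with h5 | hv
          · omega
          · exact hv
        refine ih.2 h2 u hu' v hv' huv ?_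
        rintro ⟨w, hw, h3, h4⟩
        exact hno ⟨w, List.mem_cons_of_mem _ hw, h3, h4⟩

theorem adj_last {γ : ℕ → ℕ → Bool} {Y : Set ℕ} : ∀ {l : List ℕ} (hne : l ≠ []), Adj γ Y l →
    (l.getLastD 0 ∈ Y ↔ ¬ (l.headD 0 ∈ Y ↔ gs γ l = true))
  | [a], _, _ => by simp [gs]
  | a :: b :: l, _, ⟨h1, h2⟩ => by
    have ih := adj_last (γ := γ) (Y := Y) (l := b :: l) (by simp) h2
    have e1 : (a :: b :: l).getLastD 0 = (b :: l).getLastD 0 := by simp [List.getLastD]
    rw [e1, ih]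
    have e2 : (b :: l).headD 0 = b := rfl
    have e3 : (a :: b :: l).headD 0 = a := rfl
    rw [e2, e3, h1]
    have e4 : gs γ (a :: b :: l) = xor (γ a b) (gs γ (b :: l)) := rfl
    rw [e4]
    cases γ a b <;> cases gs γ (b :: l) <;> simp

theorem exists_adj {γ : ℕ → ℕ → Bool} : ∀ {l : List ℕ}, l.Pairwise (· < ·) → l ≠ [] →
    ∀ ε : Prop, ∃ Y ⊆ {q | q ∈ l}, (l.headD 0 ∈ Y ↔ ε) ∧ Adj γ Y l
  | [a], _, _, ε => by
    refine ⟨{q | q = a ∧ ε}, ?_, ?_, trivial⟩
    · rintro q ⟨rfl, _⟩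
      simp
    · simp
  | a :: b :: l, hl, _, ε => by
    have hl' : (b :: l).Pairwise (· < ·) := (List.pairwise_cons.1 hl).2
    have ha : ∀ x ∈ b :: l, a < x := (List.pairwise_cons.1 hl).1
    obtain ⟨Y, hY, hb, hadj⟩ := exists_adj (γ := γ) hl' (by simp) (¬ (ε ↔ γ a b = true))
    refine ⟨{q | q ∈ Y ∨ (q = a ∧ ε)}, ?_, ?_, ?_⟩
    · rintro q (hq | ⟨rfl, _⟩)
      · have := hY hq
        exact List.mem_cons_of_mem _ this
      · simp
    · have haY : a ∉ Y := fun h => lt_irrefl a (ha a (hY h))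
      show (a ∈ Y ∨ (a = a ∧ ε)) ↔ ε
      tauto
    · have haY : a ∉ Y := fun h => lt_irrefl a (ha a (hY h))
      have hba : b ≠ a := (ha b (by simp)).ne'
      refine ⟨?_, hadj.congr fun x hx => ?_⟩
      · show (b ∈ Y ∨ (b = a ∧ ε)) ↔ ¬ ((a ∈ Y ∨ (a = a ∧ ε)) ↔ γ a b = true)
        have hb' : b ∈ Y ↔ ¬ (ε ↔ γ a b = true) := hb
        rw [hb']
        tauto
      · show x ∈ Y ↔ (x ∈ Y ∨ (x = a ∧ ε))
        have := (ha x hx).ne'
        tauto

theorem par_sem {l : List ℕ} (hl : l.Pairwise (· < ·)) (γ : ℕ → ℕ → ℕ → ℕ → Bool) :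
    (∃ s ∈ l, ∃ x ∈ l, (∀ w ∈ l, ¬ s < w) ∧ (∀ w ∈ l, ¬ w < x) ∧ ∃ Y ⊆ {q | q ∈ l}, x ∉ Y ∧ s ∈ Y ∧
      ∀ u ∈ l, ∀ v ∈ l, u < v → (¬ ∃ w ∈ l, u < w ∧ w < v) →
        (v ∈ Y ↔ ¬ (u ∈ Y ↔ γ s x u v = true))) ↔
      gs (γ (l.getLastD 0) (l.headD 0)) l = true := by
  rcases eq_or_ne l [] with rfl | hne
  · simp [gs]
  have hhead : l.headD 0 ∈ l ∧ ∀ w ∈ l, l.headD 0 ≤ w := by
    cases l with
    | nil => exact absurd rfl hne
    | cons a l =>
      refine ⟨by simp, fun w hw => ?_⟩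
      rcases List.mem_cons.1 hw with rfl | hw
      · simp
      · exact ((List.pairwise_cons.1 hl).1 w hw).le
  have hlast : l.getLastD 0 ∈ l ∧ ∀ w ∈ l, w ≤ l.getLastD 0 := by
    have e : l.getLastD 0 = l.getLast hne := by
      rw [List.getLastD_eq_getLast?, List.getLast?_eq_some_getLast hne]
      rfl
    rw [e]
    refine ⟨List.getLast_mem hne, fun w hw => ?_⟩
    have h1 := List.dropLast_append_getLast hne
    rw [← h1] at hw hl
    rcases List.mem_append.1 hw with hw | hw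
    · exact ((List.pairwise_append.1 hl).2.2 w hw _ (by simp)).le
    · rw [List.mem_singleton] at hw
      exact hw.le
  constructor
  · rintro ⟨s, hs, x, hx, h1, h2, Y, _, hxY, hsY, h3⟩
    have es : s = l.getLastD 0 := by
      have h4 := h1 _ hlast.1
      have h5 := hlast.2 s hs
      omega
    have ex : x = l.headD 0 := by
      have h4 := h2 _ hhead.1
      have h5 := hhead.2 x hx
      omega
    have h4 := (adj_iff (γ := γ s x) hl).1 h3
    have h5 := adj_last hne h4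
    rw [← es, ← ex] at h5 ⊢
    tauto
  · intro h
    obtain ⟨Y, hY, hh, hadj⟩ := exists_adj (γ := γ (l.getLastD 0) (l.headD 0)) hl hne False
    have h5 := adj_last hne hadj
    refine ⟨l.getLastD 0, hlast.1, l.headD 0, hhead.1, fun w hw => ?_, fun w hw => ?_, Y, hY, ?_,
      ?_, (adj_iff hl).2 hadj⟩
    · have := hlast.2 w hw
      omega
    · have := hhead.2 w hw
      omega
    · tauto
    · tauto

end Pool.Agent.Y579.HM
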