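import Pool.Agent.Y579.HM.Lev

/-!
Ramsey's theorem for finitely many predicates on increasing lists of length `r`: if the predicates
are of level `N`, there is an infinite homogeneous set of level `N + 6 r`.
-/

namespace Pool.Agent.Y579.HM

open Encodable

section comb

variable {ι : Type} (P : ι → List ℕ → Prop) (r : ℕ) (A : Set ℕ)

/-- End-homogeneous sets. -/
def EH (S : Set ℕ) : Prop :=
  ∀ t : List ℕ, t.length = r → (∀ x ∈ t, x ∈ S) → ∀ y ∈ S, ∀ z ∈ S, (∀ x ∈ t, x < y) →
    (∀ x ∈ t, x < z) → ∀ a, (P a (t ++ [y]) ↔ P a (t ++ [z]))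

/-- Extensions by one element. -/
def Ext (τ : Set ℕ) (x : ℕ) : Prop := x ∈ A ∧ (∀ y ∈ τ, y < x) ∧ EH P r (insert x τ)

/-- The next element. -/
def Nx (τ : Set ℕ) (x : ℕ) : Prop := Ext P r A τ x ∧ {z | Ext P r A (insert x τ) z}.Infinite

theorem exists_Nx [Finite ι] {τ : Set ℕ} (hτ : τ.Finite) (h : {z | Ext P r A τ z}.Infinite) :
    ∃ x, Nx P r A τ x := by
  classical
  set E := {z | Ext P r A τ z} with hE
  have : Infinite ↥E := h.to_subtype
  have hK : {l : List ℕ | l.length = r ∧ ∀ y ∈ l, y ∈ τ}.Finite := by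
    have : Finite ↥τ := hτ
    refine ((List.finite_length_eq ↥τ r).image (List.map Subtype.val)).subset ?_
    rintro l ⟨h1, h2⟩
    refine ⟨l.attach.map fun x => ⟨x.1, h2 x.1 x.2⟩, ?_, ?_⟩
    · simp [h1]
    · simp [Function.comp_def]
  have : Finite ↥{l : List ℕ | l.length = r ∧ ∀ y ∈ l, y ∈ τ} := hK
  let f : ↥E → Set (↥{l : List ℕ | l.length = r ∧ ∀ y ∈ l, y ∈ τ} × ι) :=
    fun x => {p | P p.2 (p.1.1 ++ [x.1])}
  obtain ⟨V, hV⟩ := Finite.exists_infinite_fiber f
  have hV' : (Subtype.val '' (f ⁻¹' {V})).Infinite := by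
    refine Set.Infinite.image (Subtype.val_injective.injOn) ?_
    exact Set.infinite_coe_iff.1 hV
  obtain ⟨x0, ⟨x0', hx0', rfl⟩⟩ := hV'.nonempty
  have hx0 : Ext P r A τ x0'.1 := x0'.2
  refine ⟨x0'.1, hx0, ?_⟩
  refine (hV'.diff (Set.finite_Iic x0'.1)).mono ?_
  rintro z ⟨⟨z', hz', rfl⟩, hz⟩
  have hz1 : x0'.1 < z'.1 := by simpa using hz
  have hzE : Ext P r A τ z'.1 := z'.2
  have hf : f z' = f x0' := by
    rw [Set.mem_preimage, Set.mem_singleton_iff] at hz' hx0'
    rw [hz', hx0']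
  refine ⟨hzE.1, ?_, ?_⟩
  · rintro y (rfl | hy)
    · exact hz1
    · exact hzE.2.1 y hy
  · intro t ht htS y hy y' hy' hty hty' a
    by_cases hτt : ∀ x ∈ t, x ∈ τ
    · have key : ∀ y ∈ insert z'.1 (insert x0'.1 τ), (∀ x ∈ t, x < y) →
          (P a (t ++ [y]) ↔ P a (t ++ [x0'.1])) := by
        intro y hy hty
        rcases hy with rfl | hy
        · have h1 : ((⟨t, ht, hτt⟩, a) : ↥{l : List ℕ | l.length = r ∧ ∀ y ∈ l, y ∈ τ} × ι) ∈ f z' ↔
              ((⟨t, ht, hτt⟩, a) : ↥{l : List ℕ | l.length = r ∧ ∀ y ∈ l, y ∈ τ} × ι) ∈ f x0' := by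
            rw [hf]
          exact h1
        · refine hx0.2.2 t ht (fun x hx => Or.inr (hτt x hx)) y hy x0'.1 (Or.inl rfl) hty ?_ a
          intro x hx
          exact hx0.2.1 x (hτt x hx)
      exact (key y hy hty).trans (key y' hy' hty').symm
    · push Not at hτt
      obtain ⟨x, hx, hxτ⟩ := hτt
      have hx1 : x0'.1 ≤ x := by
        rcases htS x hx with h1 | h1 | h1
        · omega
        · omega
        · exact absurd h1 hxτ
      have key : ∀ y ∈ insert z'.1 (insert x0'.1 τ), x < y → y = z'.1 := by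
        rintro y (rfl | rfl | hy) hxy
        · rfl
        · omega
        · have := hx0.2.1 y hy
          omega
      rw [key y hy (hty x hx), key y' hy' (hty' x hx)]

/-- The finite parts of the end-homogeneous set. -/
def Bs : ℕ → Set ℕ
  | 0 => ∅
  | n + 1 => {x | x ∈ Bs n ∨ (x = n ∧ Nx P r A (Bs n) n)}

/-- The end-homogeneous set. -/
def As : Set ℕ := {n | Nx P r A (Bs P r A n) n}

theorem mem_Bs {n x : ℕ} : x ∈ Bs P r A n ↔ x < n ∧ x ∈ As P r A := by
  induction n with
  | zero => simp [Bs]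
  | succ n ih =>
    show x ∈ Bs P r A n ∨ (x = n ∧ Nx P r A (Bs P r A n) n) ↔ _
    rw [ih]
    constructor
    · rintro (⟨h1, h2⟩ | ⟨rfl, h2⟩)
      · exact ⟨by omega, h2⟩
      · exact ⟨by omega, h2⟩
    · rintro ⟨h1, h2⟩
      rcases Nat.lt_succ_iff_lt_or_eq.1 h1 with h3 | rfl
      · exact Or.inl ⟨h3, h2⟩
      · exact Or.inr ⟨rfl, h2⟩

theorem Bs_succ {n : ℕ} : Bs P r A (n + 1) = Bs P r A n ∨
    (Nx P r A (Bs P r A n) n ∧ Bs P r A (n + 1) = insert n (Bs P r A n)) := by
  by_cases h : Nx P r A (Bs P r A n) n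
  · refine Or.inr ⟨h, ?_⟩
    ext x
    show x ∈ Bs P r A n ∨ (x = n ∧ Nx P r A (Bs P r A n) n) ↔ _
    rw [Set.mem_insert_iff]
    tauto
  · refine Or.inl ?_
    ext x
    show x ∈ Bs P r A n ∨ (x = n ∧ Nx P r A (Bs P r A n) n) ↔ _
    tauto

theorem Bs_finite (n : ℕ) : (Bs P r A n).Finite :=
  (Set.finite_lt_nat n).subset fun _ hx => ((mem_Bs P r A).1 hx).1

theorem EH_Bs (n : ℕ) : EH P r (Bs P r A n) := by
  induction n with
  | zero =>
    intro t _ _ y hy
    exact absurd hy (by simp [Bs])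
  | succ n ih =>
    rcases Bs_succ P r A (n := n) with h | ⟨h1, h2⟩
    · rw [h]; exact ih
    · rw [h2]; exact h1.1.2.2

theorem EH_As : EH P r (As P r A) := by
  intro t ht htS y hy z hz hty htz a
  have h1 : ∀ x, x ∈ As P r A → x < y + z + 1 → x ∈ Bs P r A (y + z + 1) := fun x hx hlt =>
    (mem_Bs P r A).2 ⟨hlt, hx⟩
  refine EH_Bs P r A (y + z + 1) t ht (fun x hx => h1 x (htS x hx) ?_) y (h1 y hy (by omega)) z
    (h1 z hz (by omega)) hty htz a
  have := hty x hx
  omega

theorem Ext_empty (x : ℕ) : Ext P r A ∅ x ↔ x ∈ A := by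
  constructor
  · intro h; exact h.1
  · intro h
    refine ⟨h, by simp, ?_⟩
    intro t _ _ y hy z hz _ _ a
    have e1 : y = x := by simpa using hy
    have e2 : z = x := by simpa using hz
    rw [e1, e2]

theorem inf_Bs (hA : A.Infinite) (n : ℕ) : {z | Ext P r A (Bs P r A n) z}.Infinite := by
  induction n with
  | zero =>
    refine hA.mono fun x hx => ?_
    exact (Ext_empty P r A x).2 hx
  | succ n ih =>
    rcases Bs_succ P r A (n := n) with h | ⟨h1, h2⟩
    · rw [h]; exact ih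
    · rw [h2]; exact h1.2

theorem As_subset : As P r A ⊆ A := fun _ hx => hx.1.1

theorem As_infinite [Finite ι] (hA : A.Infinite) : (As P r A).Infinite := by
  intro hfin
  obtain ⟨M, hM⟩ := hfin.bddAbove
  have h1 : ∀ n, M < n → Bs P r A n = As P r A := by
    intro n hn
    ext x
    rw [mem_Bs]
    constructor
    · exact fun h => h.2
    · exact fun h => ⟨lt_of_le_of_lt (hM h) hn, h⟩
  obtain ⟨x, hx⟩ := exists_Nx P r A (Bs_finite P r A (M + 1)) (inf_Bs P r A hA (M + 1))
  rw [h1 _ (Nat.lt_succ_self M)] at hx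
  -- the element `x` is beyond all of the set
  have h2 : Bs P r A x = As P r A := by
    ext y
    rw [mem_Bs]
    constructor
    · exact fun h => h.2
    · exact fun h => ⟨hx.1.2.1 y h, h⟩
  have h3 : x ∈ As P r A := by
    show Nx P r A (Bs P r A x) x
    rw [h2]; exact hx
  exact lt_irrefl x (hx.1.2.1 x h3)

/-- a description of the end-homogeneous set -/
theorem mem_As (n : ℕ) : n ∈ As P r A ↔ ∃ l : List ℕ,
    (∀ m, m < n → (m ∈ l ↔ Nx P r A {x | x ∈ l.filter (· < m)} m)) ∧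
      Nx P r A {x | x ∈ l.filter (· < n)} n := by
  classical
  constructor
  · intro h
    refine ⟨(Bs_finite P r A n).toFinset.toList, ?_⟩
    have h1 : ∀ m ≤ n, {x | x ∈ ((Bs_finite P r A n).toFinset.toList).filter (· < m)} =
        Bs P r A m := by
      intro m hm
      ext x
      simp only [List.mem_filter, Finset.mem_toList, Set.Finite.mem_toFinset, decide_eq_true_eq,
        Set.mem_setOf_eq, mem_Bs]
      constructor
      · rintro ⟨⟨h1, h2⟩, h3⟩; exact ⟨h3, h2⟩
      · rintro ⟨h1, h2⟩; exact ⟨⟨by omega, h2⟩, h1⟩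
    refine ⟨fun m hm => ?_, ?_⟩
    · rw [h1 m hm.le]
      simp only [Finset.mem_toList, Set.Finite.mem_toFinset, mem_Bs]
      constructor
      · exact fun h => h.2
      · exact fun h => ⟨hm, h⟩
    · rw [h1 n le_rfl]; exact h
  · rintro ⟨l, h1, h2⟩
    have h3 : ∀ m ≤ n, {x | x ∈ l.filter (· < m)} = Bs P r A m := by
      intro m
      induction m using Nat.strong_induction_on with
      | _ m ih =>
        intro hm
        ext x
        simp only [List.mem_filter, decide_eq_true_eq, Set.mem_setOf_eq, mem_Bs]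
        constructor
        · rintro ⟨h3, h4⟩
          refine ⟨h4, ?_⟩
          have h5 := (h1 x (by omega)).1 h3
          rw [ih x h4 (by omega)] at h5
          exact h5
        · rintro ⟨h3, h4⟩
          refine ⟨(h1 x (by omega)).2 ?_, h3⟩
          rw [ih x h3 (by omega)]
          exact h4
    show Nx P r A (Bs P r A n) n
    rw [← h3 n le_rfl]
    exact h2

end comb

end Pool.Agent.Y579.HM
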