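import Pool.Agent.Y579.HM.Ramsey

/-!
The level of the end-homogeneous set, and Ramsey's theorem.
-/

namespace Pool.Agent.Y579.HM

open Encodable

theorem Lev.of_primrec {Z : Set ℕ} {α : Type} [Primcodable α] {n : ℕ} {p : α → Prop} (hp : PrimrecPred p) :
    Lev Z n p := by
  obtain ⟨_, h⟩ := hp
  exact (Lev.of_comp h.to_comp).congr fun a => by simp

theorem primrec_mem : PrimrecRel fun (l : List ℕ) (x : ℕ) => x ∈ l :=
  (PrimrecRel.exists_mem_list (R := fun a x : ℕ => a = x) Primrec.eq).of_eq fun l x => by simp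

theorem primrec_mem' : PrimrecRel fun (x : ℕ) (l : List ℕ) => x ∈ l :=
  primrec_mem.comp Primrec.snd Primrec.fst

theorem primrec_all_mem : PrimrecRel fun (t l : List ℕ) => ∀ x ∈ t, x ∈ l :=
  PrimrecRel.forall_mem_list primrec_mem'

theorem primrec_all_lt : PrimrecRel fun (t : List ℕ) (y : ℕ) => ∀ x ∈ t, x < y :=
  PrimrecRel.forall_mem_list Primrec.nat_lt

theorem primrec_filter : Primrec₂ fun (l : List ℕ) (m : ℕ) => l.filter (· < m) :=
  PrimrecRel.listFilter Primrec.nat_lt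

section
variable {Z : Set ℕ} {ι : Type} [Primcodable ι] {P : ι → List ℕ → Prop} {r : ℕ} {A : Set ℕ} {N : ℕ}

/-- quantified data -/
abbrev Dt (ι : Type) := ((List ℕ × ℕ) × ℕ) × ι

theorem lev_EH (hP : Lev Z N fun x : ι × List ℕ => P x.1 x.2) :
    Lev Z (N + 1) fun l : List ℕ => EH P r {x | x ∈ l} := by
  have h1 : Lev Z N fun x : List ℕ × Dt ι =>
      (x.2.1.1.1.length = r ∧ ((∀ w ∈ x.2.1.1.1, w ∈ x.1) ∧ (x.2.1.1.2 ∈ x.1 ∧ (x.2.1.2 ∈ x.1 ∧
        ((∀ w ∈ x.2.1.1.1, w < x.2.1.1.2) ∧ ∀ w ∈ x.2.1.1.1, w < x.2.1.2))))) →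
      (P x.2.2 (x.2.1.1.1 ++ [x.2.1.1.2]) ↔ P x.2.2 (x.2.1.1.1 ++ [x.2.1.2])) := by
    have p1 : Primrec fun x : List ℕ × Dt ι => x.1 := Primrec.fst
    have p2 : Primrec fun x : List ℕ × Dt ι => x.2.1.1.1 :=
      Primrec.fst.comp (Primrec.fst.comp (Primrec.fst.comp Primrec.snd))
    have p3 : Primrec fun x : List ℕ × Dt ι => x.2.1.1.2 :=
      Primrec.snd.comp (Primrec.fst.comp (Primrec.fst.comp Primrec.snd))
    have p4 : Primrec fun x : List ℕ × Dt ι => x.2.1.2 :=
      Primrec.snd.comp (Primrec.fst.comp Primrec.snd)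
    have p5 : Primrec fun x : List ℕ × Dt ι => x.2.2 := Primrec.snd.comp Primrec.snd
    refine Lev.imp (Lev.and ?_ (Lev.and ?_ (Lev.and ?_ (Lev.and ?_ (Lev.and ?_ ?_)))))
      (Lev.iff ?_ ?_)
    · exact Lev.of_primrec (Primrec.eq.comp (Primrec.list_length.comp p2) (Primrec.const r))
    · exact Lev.of_primrec (primrec_all_mem.comp p2 p1)
    · exact Lev.of_primrec (primrec_mem.comp p1 p3)
    · exact Lev.of_primrec (primrec_mem.comp p1 p4)
    · exact Lev.of_primrec (primrec_all_lt.comp p2 p3)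
    · exact Lev.of_primrec (primrec_all_lt.comp p2 p4)
    · exact hP.subst (g := fun x : List ℕ × Dt ι => (x.2.2, x.2.1.1.1 ++ [x.2.1.1.2]))
        (p5.pair (Primrec.list_concat.comp p2 p3)).to_comp
    · exact hP.subst (g := fun x : List ℕ × Dt ι => (x.2.2, x.2.1.1.1 ++ [x.2.1.2]))
        (p5.pair (Primrec.list_concat.comp p2 p4)).to_comp
  refine h1.all.congr fun l => ?_
  constructor
  · intro h t ht htl y hy z hz hty htz a
    exact h (((t, y), z), a) ⟨ht, htl, hy, hz, hty, htz⟩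
  · rintro h ⟨⟨⟨t, y⟩, z⟩, a⟩ ⟨ht, htl, hy, hz, hty, htz⟩
    exact h t ht htl y hy z hz hty htz a

theorem insert_list (x : ℕ) (l : List ℕ) : insert x {y | y ∈ l} = {y | y ∈ x :: l} := by
  ext y
  simp

theorem lev_Ext (hA : LevN Z N (· ∈ A)) (hP : Lev Z N fun x : ι × List ℕ => P x.1 x.2) :
    Lev Z (N + 1) fun x : List ℕ × ℕ => Ext P r A {y | y ∈ x.1} x.2 := by
  have h1 : Lev Z (N + 1) fun x : List ℕ × ℕ => x.2 ∈ A ∧ ((∀ y ∈ x.1, y < x.2) ∧
      EH P r {y | y ∈ x.2 :: x.1}) := by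
    refine Lev.and ?_ (Lev.and ?_ ?_)
    · exact (Lev.subst (lev_iff.2 hA) (g := fun x : List ℕ × ℕ => x.2) Computable.snd).mono
        (Nat.le_succ N)
    · exact Lev.of_primrec (primrec_all_lt.comp Primrec.fst Primrec.snd)
    · exact (lev_EH hP).subst (g := fun x : List ℕ × ℕ => x.2 :: x.1)
        (Primrec.list_cons.comp Primrec.snd Primrec.fst).to_comp
  refine h1.congr fun x => ?_
  unfold Ext
  rw [insert_list]
  exact Iff.rfl

theorem lev_Nx (hA : LevN Z N (· ∈ A)) (hP : Lev Z N fun x : ι × List ℕ => P x.1 x.2) :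
    Lev Z (N + 3) fun x : List ℕ × ℕ => Nx P r A {y | y ∈ x.1} x.2 := by
  have h0 := lev_Ext (r := r) hA hP
  have h1 : Lev Z (N + 1) fun x : ((List ℕ × ℕ) × ℕ) × ℕ => x.1.2 < x.2 ∧
      Ext P r A {y | y ∈ x.1.1.2 :: x.1.1.1} x.2 := by
    refine Lev.and ?_ ?_
    · exact Lev.of_primrec (Primrec.nat_lt.comp (Primrec.snd.comp Primrec.fst) Primrec.snd)
    · exact h0.subst (g := fun x : ((List ℕ × ℕ) × ℕ) × ℕ => (x.1.1.2 :: x.1.1.1, x.2))
        ((Primrec.list_cons.comp (Primrec.snd.comp (Primrec.fst.comp Primrec.fst))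
          (Primrec.fst.comp (Primrec.fst.comp Primrec.fst))).pair Primrec.snd).to_comp
  refine ((h0.mono (show N + 1 ≤ N + 3 by omega)).and h1.ex.all).congr fun x => ?_
  unfold Nx
  rw [insert_list]
  refine and_congr_right fun _ => ?_
  constructor
  · intro h
    refine Set.infinite_of_forall_exists_gt fun b => ?_
    obtain ⟨z, h1, h2⟩ := h b
    exact ⟨z, h2, h1⟩
  · intro h b
    obtain ⟨z, h1, h2⟩ := h.exists_gt b
    exact ⟨z, h2, h1⟩

theorem lev_As (hA : LevN Z N (· ∈ A)) (hP : Lev Z N fun x : ι × List ℕ => P x.1 x.2) :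
    LevN Z (N + 5) (· ∈ As P r A) := by
  have h0 := lev_Nx (r := r) hA hP
  have h1 : Lev Z (N + 3) fun x : ℕ × List ℕ =>
      Nx P r A {y | y ∈ x.2.filter (· < x.1)} x.1 :=
    h0.subst (g := fun x : ℕ × List ℕ => (x.2.filter (· < x.1), x.1))
      ((primrec_filter.comp Primrec.snd Primrec.fst).pair Primrec.fst).to_comp
  have h2 : Lev Z (N + 3) fun x : (ℕ × List ℕ) × ℕ => x.2 < x.1.1 →
      (x.2 ∈ x.1.2 ↔ Nx P r A {y | y ∈ x.1.2.filter (· < x.2)} x.2) := by
    refine Lev.imp ?_ (Lev.iff ?_ ?_)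
    · exact Lev.of_primrec (Primrec.nat_lt.comp Primrec.snd (Primrec.fst.comp Primrec.fst))
    · exact Lev.of_primrec (primrec_mem.comp (Primrec.snd.comp Primrec.fst) Primrec.snd)
    · exact h1.subst (g := fun x : (ℕ × List ℕ) × ℕ => (x.2, x.1.2))
        (Primrec.snd.pair (Primrec.snd.comp Primrec.fst)).to_comp
  have h3 := (h2.all.and (h1.mono (show N + 3 ≤ N + 4 by omega))).ex
  refine lev_iff.1 (h3.congr fun n => ?_)
  rw [mem_As]

/-- **Ramsey's theorem** with levels. -/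
theorem ramsey [Finite ι] (r : ℕ) : ∀ {N : ℕ} {A : Set ℕ} {P : ι → List ℕ → Prop}, A.Infinite →
    LevN Z N (· ∈ A) → Lev Z N (fun x : ι × List ℕ => P x.1 x.2) →
    ∃ H ⊆ A, H.Infinite ∧ LevN Z (N + 6 * r) (· ∈ H) ∧
      ∀ t t' : List ℕ, t.length = r → t'.length = r → t.Pairwise (· < ·) → t'.Pairwise (· < ·) →
        (∀ x ∈ t, x ∈ H) → (∀ x ∈ t', x ∈ H) → ∀ a, (P a t ↔ P a t') := by
  induction r with
  | zero =>
    intro N A P hA hAN _
    refine ⟨A, subset_rfl, hA, hAN, ?_⟩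
    intro t t' ht ht' _ _ _ _ a
    rw [List.length_eq_zero_iff.1 ht, List.length_eq_zero_iff.1 ht']
  | succ r ih =>
    intro N A P hA hAN hP
    set B := As P r A with hB
    have hBinf : B.Infinite := As_infinite P r A hA
    have hBN : LevN Z (N + 6) (· ∈ B) := (lev_As hAN hP).mono (by omega)
    let P' : ι → List ℕ → Prop := fun a t => ∃ x, x ∈ B ∧ ((∀ y ∈ t, y < x) ∧ P a (t ++ [x]))
    have hP' : Lev Z (N + 6) fun x : ι × List ℕ => P' x.1 x.2 := by
      have h1 : Lev Z (N + 5) fun x : (ι × List ℕ) × ℕ => x.2 ∈ B ∧ ((∀ y ∈ x.1.2, y < x.2) ∧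
          P x.1.1 (x.1.2 ++ [x.2])) := by
        refine Lev.and ?_ (Lev.and ?_ ?_)
        · exact Lev.subst (lev_iff.2 (lev_As (r := r) hAN hP))
            (g := fun x : (ι × List ℕ) × ℕ => x.2) Computable.snd
        · exact Lev.of_primrec (primrec_all_lt.comp (Primrec.snd.comp Primrec.fst) Primrec.snd)
        · refine (hP.subst (g := fun x : (ι × List ℕ) × ℕ => (x.1.1, x.1.2 ++ [x.2]))
            ?_).mono (by omega)
          exact ((Primrec.fst.comp Primrec.fst).pair (Primrec.list_concat.comp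
            (Primrec.snd.comp Primrec.fst) Primrec.snd)).to_comp
      exact h1.ex
    obtain ⟨H, hHB, hH, hHN, hom⟩ := ih hBinf hBN hP'
    refine ⟨H, hHB.trans (As_subset P r A), hH, ?_, ?_⟩
    · have e : N + 6 + 6 * r = N + 6 * (r + 1) := by ring
      rw [← e]; exact hHN
    · -- reduction to the shorter lists
      have key : ∀ T : List ℕ, T.length = r + 1 → T.Pairwise (· < ·) → (∀ x ∈ T, x ∈ H) →
          ∃ t : List ℕ, t.length = r ∧ t.Pairwise (· < ·) ∧ (∀ x ∈ t, x ∈ H) ∧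
            ∀ a, (P a T ↔ P' a t) := by
        intro T hT hTs hTH
        have hne : T ≠ [] := by
          rintro rfl
          simp at hT
        obtain ⟨t, x, rfl⟩ : ∃ t x, T = t ++ [x] :=
          ⟨T.dropLast, T.getLast hne, (List.dropLast_append_getLast hne).symm⟩
        have hlt : ∀ y ∈ t, y < x := fun y hy =>
          (List.pairwise_append.1 hTs).2.2 y hy x (by simp)
        have htl : t.length = r := by simpa using hT
        refine ⟨t, htl, (List.pairwise_append.1 hTs).1,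
          fun y hy => hTH y (by simp [hy]), fun a => ?_⟩
        have hxB : x ∈ B := hHB (hTH x (by simp))
        constructor
        · intro h
          exact ⟨x, hxB, hlt, h⟩
        · rintro ⟨x', hx'B, hlt', h⟩
          exact (EH_As P r A t htl (fun y hy => hHB (hTH y (by simp [hy]))) x hxB x' hx'B hlt hlt'
            a).2 h
      intro T T' hT hT' hTs hTs' hTH hTH' a
      obtain ⟨t, h1, h2, h3, h4⟩ := key T hT hTs hTH
      obtain ⟨t', h1', h2', h3', h4'⟩ := key T' hT' hTs' hTH'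
      rw [h4 a, h4' a]
      exact hom t t' h1 h1' h2 h2' h3 h3' a

end

end Pool.Agent.Y579.HM
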