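import Mathlib

/-!
Languages with finitely many left quotients, over an infinite alphabet: a letter is the set of the
set variables which contain the position.
-/

namespace Pool.Agent.Y579.HM

/-- The left quotient of `L` by `w`. -/
def quo {β : Type} (L : Set (List β)) (w : List β) : Set (List β) := {y | w ++ y ∈ L}

/-- `L` has finitely many left quotients. -/
def FinQ {β : Type} (L : Set (List β)) : Prop := (Set.range (quo L)).Finite

section
variable {β : Type} {L M : Set (List β)}

theorem FinQ.of_inv {κ : Type} [Finite κ] (f : List β → κ)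
    (h : ∀ w w', f w = f w' → ∀ y, w ++ y ∈ L → w' ++ y ∈ L) : FinQ L := by
  classical
  let g : κ → Set (List β) := fun q => if h : ∃ w, f w = q then quo L h.choose else ∅
  refine (Set.finite_range g).subset ?_
  rintro _ ⟨w, rfl⟩
  refine ⟨f w, ?_⟩
  have hex : ∃ w', f w' = f w := ⟨w, rfl⟩
  show (if h : ∃ w', f w' = f w then quo L h.choose else ∅) = quo L w
  rw [dif_pos hex]
  ext y
  exact ⟨h _ _ hex.choose_spec y, h _ _ hex.choose_spec.symm y⟩

theorem FinQ.compl (h : FinQ L) : FinQ Lᶜ := by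
  refine (h.image fun S => Sᶜ).subset ?_
  rintro _ ⟨w, rfl⟩
  exact ⟨quo L w, ⟨w, rfl⟩, rfl⟩

theorem FinQ.inter (h : FinQ L) (h' : FinQ M) : FinQ (L ∩ M) := by
  refine (Set.Finite.image2 (fun a b => a ∩ b) h h').subset ?_
  rintro _ ⟨w, rfl⟩
  exact ⟨quo L w, ⟨w, rfl⟩, quo M w, ⟨w, rfl⟩, rfl⟩

/-- Projections of languages along a relation between letters. -/
def proj (o : β → β → Prop) (L : Set (List β)) : Set (List β) :=
  {w | ∃ w', List.Forall₂ o w' w ∧ w' ∈ L}

theorem mem_quo_proj (o : β → β → Prop) (L : Set (List β)) (w y : List β) :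
    y ∈ quo (proj o L) w ↔ ∃ K ∈ {K | ∃ w', List.Forall₂ o w' w ∧ K = quo L w'},
      ∃ y', List.Forall₂ o y' y ∧ y' ∈ K := by
  constructor
  · rintro ⟨u, hu, huL⟩
    refine ⟨quo L (u.take w.length), ⟨u.take w.length, ?_, rfl⟩, u.drop w.length, ?_, ?_⟩
    · exact List.forall₂_take_append u w y hu
    · exact List.forall₂_drop_append u w y hu
    · show u.take w.length ++ u.drop w.length ∈ L
      rw [List.take_append_drop]
      exact huL
  · rintro ⟨K, ⟨w', hw', rfl⟩, y', hy', hyL⟩
    exact ⟨w' ++ y', List.rel_append hw' hy', hyL⟩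

theorem FinQ.proj (o : β → β → Prop) (h : FinQ L) : FinQ (proj o L) := by
  have hfin : {S : Set (Set (List β)) | S ⊆ Set.range (quo L)}.Finite := h.finite_subsets
  refine (hfin.image fun S => {y | ∃ K ∈ S, ∃ y', List.Forall₂ o y' y ∧ y' ∈ K}).subset ?_
  rintro _ ⟨w, rfl⟩
  refine ⟨{K | ∃ w', List.Forall₂ o w' w ∧ K = quo L w'}, ?_, ?_⟩
  · rintro _ ⟨w', _, rfl⟩
    exact ⟨w', rfl⟩
  · ext y
    exact (mem_quo_proj o L w y).symm

/-- `N` is a period for the words `e e e ... e`. -/
def Per (e : β) (L : Set (List β)) (N : ℕ) : Prop :=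
  ∀ t, 1 ≤ t → (List.replicate (t * N) e ∈ L ↔ List.replicate N e ∈ L)

theorem FinQ.per (e : β) (h : FinQ L) : ∃ N, 0 < N ∧ Per e L N := by
  classical
  have h1 : ¬ Function.Injective fun m : ℕ => quo L (List.replicate m e) := by
    intro hinj
    have h2 : (Set.range fun m : ℕ => quo L (List.replicate m e)).Finite :=
      h.subset (by rintro _ ⟨m, rfl⟩; exact ⟨_, rfl⟩)
    exact Set.infinite_range_of_injective hinj h2
  obtain ⟨i, j, hij, hlt⟩ : ∃ i j, quo L (List.replicate i e) = quo L (List.replicate j e) ∧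
      i < j := by
    unfold Function.Injective at h1
    push Not at h1
    obtain ⟨i, j, h2, h3⟩ := h1
    rcases lt_or_gt_of_ne h3 with h4 | h4
    · exact ⟨i, j, h2, h4⟩
    · exact ⟨j, i, h2.symm, h4⟩
  obtain ⟨p, rfl⟩ : ∃ p, j = i + p := ⟨j - i, by omega⟩
  have hstep : ∀ m, i ≤ m → (List.replicate m e ∈ L ↔ List.replicate (m + p) e ∈ L) := by
    intro m hm
    obtain ⟨q, rfl⟩ := Nat.exists_eq_add_of_le hm
    have h2 : List.replicate q e ∈ quo L (List.replicate i e) ↔
        List.replicate q e ∈ quo L (List.replicate (i + p) e) := by rw [hij]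
    have h3 : List.replicate i e ++ List.replicate q e ∈ L ↔
        List.replicate (i + p) e ++ List.replicate q e ∈ L := h2
    rw [← List.replicate_add, ← List.replicate_add] at h3
    rw [h3, show i + p + q = i + q + p by ring]
  have hsteps : ∀ c m, i ≤ m → (List.replicate m e ∈ L ↔ List.replicate (m + c * p) e ∈ L) := by
    intro c
    induction c with
    | zero => intro m _; simp
    | succ c ih =>
      intro m hm
      rw [ih m hm, hstep _ (by omega), show m + c * p + p = m + (c + 1) * p by ring]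
  refine ⟨(i + 1) * p, Nat.mul_pos (Nat.succ_pos i) (by omega), ?_⟩
  intro t ht
  obtain ⟨t', rfl⟩ := Nat.exists_eq_add_of_le ht
  have h4 := hsteps (t' * (i + 1)) ((i + 1) * p) (by nlinarith)
  rw [h4, show (i + 1) * p + t' * (i + 1) * p = (1 + t') * ((i + 1) * p) by ring]

theorem Per.mul {e : β} {N : ℕ} (h : Per e L N) {M : ℕ} (hM : 1 ≤ M) : Per e L (N * M) := by
  intro t ht
  have h1 := h (t * M) (Nat.mul_pos ht hM)
  have h2 := h M hM
  rw [show t * (N * M) = t * M * N by ring, show N * M = M * N by ring, h1, h2]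

end

/-- Relations which depend only on the order type of their arguments. -/
def OrdInv {m : ℕ} (R : (Fin m → ℕ) → Prop) : Prop :=
  ∀ x y : Fin m → ℕ, (∀ i j, x i < x j ↔ y i < y j) → (R x → R y)

/-- The language of an atomic formula. -/
def atomL {m : ℕ} (J : Fin m → ℕ) (R : (Fin m → ℕ) → Prop) : Set (List (Set ℕ)) :=
  {w | ∃ x : Fin m → ℕ, (∀ i, ∃ c, w[x i]? = some c ∧ J i ∈ c) ∧ R x}

theorem atomL_finQ {m : ℕ} (J : Fin m → ℕ) {R : (Fin m → ℕ) → Prop} (hR : OrdInv R) :
    FinQ (atomL J R) := by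
  classical
  let f : List (Set ℕ) → Set (Set (Fin m) × (Fin m → Fin m → Prop)) := fun w =>
    {p | ∃ x : Fin m → ℕ, (∀ i ∈ p.1, ∃ c, w[x i]? = some c ∧ J i ∈ c) ∧
      ∀ i ∈ p.1, ∀ j ∈ p.1, (x i < x j ↔ p.2 i j)}
  refine FinQ.of_inv f ?_
  intro w w' hw y
  rintro ⟨x, hx, hRx⟩
  let A : Set (Fin m) := {i | x i < w.length}
  have h1 : ((A, fun i j => x i < x j) : Set (Fin m) × (Fin m → Fin m → Prop)) ∈ f w := by
    refine ⟨x, fun i hi => ?_, fun i _ j _ => Iff.rfl⟩
    obtain ⟨c, hc, hJ⟩ := hx i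
    refine ⟨c, ?_, hJ⟩
    rw [← hc]
    exact (List.getElem?_append_left hi).symm
  rw [hw] at h1
  obtain ⟨x', hx', hord⟩ := h1
  have hA : ∀ i, i ∈ A ↔ x i < w.length := fun i => Iff.rfl
  have hlt : ∀ i ∈ A, x' i < w'.length := by
    intro i hi
    obtain ⟨c, hc, _⟩ := hx' i hi
    exact (List.getElem?_eq_some_iff.1 hc).1
  refine ⟨fun i => if i ∈ A then x' i else x i - w.length + w'.length, fun i => ?_, ?_⟩
  · by_cases hi : i ∈ A
    · obtain ⟨c, hc, hJ⟩ := hx' i hi
      refine ⟨c, ?_, hJ⟩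
      simp only [hi, if_true]
      rw [List.getElem?_append_left (hlt i hi)]
      exact hc
    · obtain ⟨c, hc, hJ⟩ := hx i
      have hi' : w.length ≤ x i := by
        rw [hA] at hi; omega
      refine ⟨c, ?_, hJ⟩
      simp only [hi, if_false]
      rw [List.getElem?_append_right hi'] at hc
      rw [List.getElem?_append_right (by omega), ← hc]
      congr 1
      omega
  · refine hR x _ (fun i j => ?_) hRx
    by_cases hi : i ∈ A <;> by_cases hj : j ∈ A
    · simp only [hi, hj, if_true]
      exact (hord i hi j hj).symm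
    · simp only [hi, hj, if_true, if_false]
      have h2 := hlt i hi
      rw [hA] at hi hj
      omega
    · simp only [hi, hj, if_true, if_false]
      have h2 := hlt j hj
      rw [hA] at hi hj
      omega
    · simp only [hi, hj, if_false]
      rw [hA] at hi hj
      omega

end Pool.Agent.Y579.HM
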